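import Pool.Agent.Lib.MP_83fbc5_gt.AP.Minor

/-!
# MP_83fbc5_gt, AP, module Det: the rational rank and the rank in characteristic `p` of an integer matrix
-/

set_option autoImplicit false

namespace APR

open Matrix Module

universe w

/-- the determinant is at most the product of the sums of the absolute values of the rows -/
theorem natAbs_det_le {r : ℕ} (B : Matrix (Fin r) (Fin r) ℤ) (K : ℕ) (h : ∀ i, ∑ j, (B i j).natAbs ≤ K) :
    B.det.natAbs ≤ K ^ r := by
  have h1 : |B.det| ≤ ∑ σ : Equiv.Perm (Fin r), ∏ i, |B i (σ i)| := by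
    rw [← det_transpose, det_apply']
    refine (Finset.abs_sum_le_sum_abs _ _).trans (Finset.sum_le_sum fun σ _ => ?_)
    have e : ∏ i, Bᵀ (σ i) i = ∏ i, B i (σ i) := rfl
    rw [e, abs_mul, Finset.abs_prod]
    rcases Int.units_eq_one_or (Equiv.Perm.sign σ) with h | h <;> rw [h] <;> simp
  have h2 : ∑ σ : Equiv.Perm (Fin r), ∏ i, |B i (σ i)| ≤ ∑ f : Fin r → Fin r, ∏ i, |B i (f i)| := by
    have e : ∑ σ : Equiv.Perm (Fin r), ∏ i, |B i (σ i)| =
        ∑ f ∈ Finset.univ.map ⟨fun σ : Equiv.Perm (Fin r) => (σ : Fin r → Fin r), DFunLike.coe_injective⟩,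
          ∏ i, |B i (f i)| := by
      rw [Finset.sum_map]
      rfl
    rw [e]
    exact Finset.sum_le_univ_sum_of_nonneg fun f => Finset.prod_nonneg fun i _ => abs_nonneg _
  have h3 : ∑ f : Fin r → Fin r, ∏ i, |B i (f i)| = ∏ i, ∑ j, |B i j| :=
    (Fintype.prod_sum fun i j => |B i j|).symm
  have h4 : ∏ i, ∑ j, |B i j| ≤ ∏ _i : Fin r, (K : ℤ) := by
    refine Finset.prod_le_prod (fun i _ => Finset.sum_nonneg fun j _ => abs_nonneg _) fun i _ => ?_
    have h5 : ((∑ j, (B i j).natAbs : ℕ) : ℤ) ≤ (K : ℤ) := by exact_mod_cast h i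
    push_cast at h5
    simpa using h5
  rw [Finset.prod_const, Finset.card_univ, Fintype.card_fin] at h4
  have h5 : |B.det| ≤ (K : ℤ) ^ r := h1.trans (h2.trans (h3.le.trans h4))
  rw [Int.abs_eq_natAbs] at h5
  exact_mod_cast h5

/-- `p ^ (size - rank mod p)` divides the determinant -/
theorem pow_dvd_det (p : ℕ) [hp : Fact p.Prime] {r : ℕ} (B : Matrix (Fin r) (Fin r) ℤ) :
    (p : ℤ) ^ (r - (B.map (Int.cast : ℤ → ZMod p)).rank) ∣ B.det := by
  classical
  obtain ⟨V, U, e, hV, hU, hD⟩ := exists_rank_normal_form (B.map (Int.cast : ℤ → ZMod p))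
  have hlift : ∀ W : Matrix (Fin r) (Fin r) (ZMod p), ∃ W' : Matrix (Fin r) (Fin r) ℤ,
      W'.map (Int.cast : ℤ → ZMod p) = W := by
    intro W
    choose W' hW' using fun i j => ZMod.intCast_surjective (W i j)
    exact ⟨W', Matrix.ext hW'⟩
  obtain ⟨V', hV'⟩ := hlift V
  obtain ⟨U', hU'⟩ := hlift U
  have hndvd : ∀ W : Matrix (Fin r) (Fin r) (ZMod p), IsUnit W → ∀ W' : Matrix (Fin r) (Fin r) ℤ,
      W'.map (Int.cast : ℤ → ZMod p) = W → IsCoprime ((p : ℤ)) W'.det := by
    intro W hW W' hW'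
    have h1 := (isUnit_iff_isUnit_det _).1 hW
    have h2 : ((W'.det : ℤ) : ZMod p) = W.det := by
      rw [← hW']
      exact (Int.castRingHom (ZMod p)).map_det W'
    rw [← h2] at h1
    have h3 : ¬ (p : ℤ) ∣ W'.det := by
      intro h4
      rw [(ZMod.intCast_zmod_eq_zero_iff_dvd _ p).2 h4] at h1
      exact h1.ne_zero rfl
    exact (Nat.prime_iff_prime_int.1 hp.out).coprime_iff_not_dvd.2 h3
  -- the product over the integers
  have hmap : (V' * B * U').map (Int.cast : ℤ → ZMod p) = (fromBlocks 1 0 0 0).submatrix e e := by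
    rw [← hD, ← hV', ← hU']
    have h := (Int.castRingHom (ZMod p)).mapMatrix (m := Fin r)
    rw [show (V' * B * U').map (Int.cast : ℤ → ZMod p) = (Int.castRingHom (ZMod p)).mapMatrix (V' * B * U') from rfl,
      map_mul, map_mul]
    rfl
  have hrow : ∀ a j, (p : ℤ) ∣ (V' * B * U') (e.symm (Sum.inr a)) j := by
    intro a j
    rw [← ZMod.intCast_zmod_eq_zero_iff_dvd]
    have h : ((V' * B * U').map (Int.cast : ℤ → ZMod p)) (e.symm (Sum.inr a)) j = 0 := by
      rw [hmap, submatrix_apply, Equiv.apply_symm_apply]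
      rcases e j with b | b <;> simp
    exact h
  choose q hq using hrow
  let v : Fin (B.map (Int.cast : ℤ → ZMod p)).rank ⊕ Fin (Fintype.card (Fin r) - (B.map (Int.cast : ℤ → ZMod p)).rank) → ℤ :=
    Sum.elim (fun _ => 1) (fun _ => (p : ℤ))
  let A : Matrix _ _ ℤ := Matrix.of fun x y => Sum.elim (fun a => (V' * B * U') (e.symm (Sum.inl a)) (e.symm y))
    (fun a => q a (e.symm y)) x
  have hdet : (V' * B * U').det = (p : ℤ) ^ (r - (B.map (Int.cast : ℤ → ZMod p)).rank) * A.det := by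
    have h1 : (V' * B * U').submatrix e.symm e.symm = Matrix.of fun x y => v x * A x y := by
      ext x y
      rcases x with a | a
      · simp [v, A]
      · have := hq a (e.symm y)
        simpa [v, A] using this
    rw [← det_submatrix_equiv_self e.symm (V' * B * U'), h1, det_mul_column]
    congr 1
    rw [Fintype.prod_sum_type]
    simp [v]
  rw [det_mul, det_mul] at hdet
  have h1 : (p : ℤ) ^ (r - (B.map (Int.cast : ℤ → ZMod p)).rank) ∣ V'.det * B.det * U'.det := ⟨_, hdet⟩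
  have h2 := ((hndvd U hU U' hU').pow_left (m := r - (B.map (Int.cast : ℤ → ZMod p)).rank)).dvd_of_dvd_mul_right h1
  exact ((hndvd V hV V' hV').pow_left (m := r - (B.map (Int.cast : ℤ → ZMod p)).rank)).dvd_of_dvd_mul_left h2

/-- the ranks over fields of distinct prime characteristics and the rational rank -/
theorem prod_rank {m n : Type} [Fintype m] [Fintype n] (M : Matrix m n ℤ) (K : ℕ)
    (h : ∀ i, ∑ j, (M i j).natAbs ≤ K) {ι : Type} [Fintype ι] (F : ι → Type w) [∀ j, Field (F j)] (p : ι → ℕ)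
    [∀ j, CharP (F j) (p j)] (hp : ∀ j, (p j).Prime) (hinj : Function.Injective p) :
    ∏ j, p j ^ ((M.map (Int.cast : ℤ → ℚ)).rank - (M.map (Int.cast : ℤ → F j)).rank) ≤
      K ^ (M.map (Int.cast : ℤ → ℚ)).rank := by
  classical
  obtain ⟨s, t, hst⟩ := exists_minor (M.map (Int.cast : ℤ → ℚ))
  rw [det_cast] at hst
  have hd : (M.submatrix s t).det ≠ 0 := fun h0 => hst (by rw [h0, Int.cast_zero])
  have ht : Function.Injective t := by
    intro a b hab
    by_contra hne
    exact hd (det_zero_of_column_eq hne fun k => by rw [submatrix_apply, submatrix_apply, hab])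
  have h1 : ∀ i, ∑ j, ((M.submatrix s t) i j).natAbs ≤ K := by
    intro i
    refine le_trans ?_ (h (s i))
    have e : ∑ j, ((M.submatrix s t) i j).natAbs = ∑ y ∈ Finset.univ.map ⟨t, ht⟩, (M (s i) y).natAbs := by
      rw [Finset.sum_map]
      rfl
    rw [e]
    exact Finset.sum_le_univ_sum_of_nonneg fun _ => Nat.zero_le _
  have h2 := natAbs_det_le _ K h1
  have h3 : ∀ j, (p j : ℤ) ^ ((M.map (Int.cast : ℤ → ℚ)).rank - (M.map (Int.cast : ℤ → F j)).rank) ∣
      (M.submatrix s t).det := by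
    intro j
    have _ : Fact (p j).Prime := ⟨hp j⟩
    have h4 := pow_dvd_det (p j) (M.submatrix s t)
    have h5 : ((M.submatrix s t).map (Int.cast : ℤ → ZMod (p j))).rank ≤ (M.map (Int.cast : ℤ → ZMod (p j))).rank :=
      rank_submatrix_le (M.map (Int.cast : ℤ → ZMod (p j))) s t
    rw [rank_eq_zmod (F j) (p j) M]
    exact (pow_dvd_pow _ (by omega)).trans h4
  have h4 : (∏ j, (p j : ℤ) ^ ((M.map (Int.cast : ℤ → ℚ)).rank - (M.map (Int.cast : ℤ → F j)).rank)) ∣
      (M.submatrix s t).det := by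
    refine Finset.prod_dvd_of_coprime (fun a _ b _ hab => ?_) fun j _ => h3 j
    have h5 : Nat.Coprime (p a) (p b) := (Nat.coprime_primes (hp a) (hp b)).2 fun h => hab (hinj h)
    exact (Nat.isCoprime_iff_coprime.2 h5).pow
  have h5 := Int.natAbs_dvd_natAbs.2 h4
  have e : (∏ j, (p j : ℤ) ^ ((M.map (Int.cast : ℤ → ℚ)).rank - (M.map (Int.cast : ℤ → F j)).rank)).natAbs =
      ∏ j, p j ^ ((M.map (Int.cast : ℤ → ℚ)).rank - (M.map (Int.cast : ℤ → F j)).rank) := by
    rw [← Int.natAbs_natCast (∏ j, p j ^ ((M.map (Int.cast : ℤ → ℚ)).rank - (M.map (Int.cast : ℤ → F j)).rank))]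
    congr 1
    push_cast
    rfl
  rw [e] at h5
  exact (Nat.le_of_dvd (Int.natAbs_pos.2 hd) h5).trans h2

end APR
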