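import Pool.Agent.Lib.MP_83fbc5_gt.AP.Det
import Pool.Agent.Lib.MP_83fbc5_gt.RFC.E2

/-!
# MP_83fbc5_gt, AP, module Grp: ranks of matrices over the group ring in different characteristics
-/

set_option autoImplicit false

namespace APR

open Matrix Module RFC

universe w

/-- the sum of the absolute values of the coefficients -/
noncomputable def nm {G : Type} [Group G] (a : MonoidAlgebra ℤ G) : ℕ := ∑ g ∈ a.coeff.support, (a.coeff g).natAbs

section

variable {G X : Type} [Group G] [Fintype X] [DecidableEq X] (σ : G →* Equiv.Perm X)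

/-- the integral permutation matrices -/
def pz : G →* Matrix X X ℤ where
  toFun g := Matrix.of fun x y => if x = σ g y then 1 else 0
  map_one' := by
    ext x y
    simp [Matrix.one_apply]
  map_mul' g h := by
    ext x y
    simp [Matrix.mul_apply]

/-- the action of `ℤ[G]` on `ℤ[X]` -/
noncomputable def rz : MonoidAlgebra ℤ G →ₐ[ℤ] Matrix X X ℤ := MonoidAlgebra.lift ℤ (Matrix X X ℤ) G (pz σ)

theorem rz_map (F : Type w) [Field F] (a : MonoidAlgebra ℤ G) :
    (rz σ a).map (Int.cast : ℤ → F) = rp F σ (MonoidAlgebra.mapRingHom G (Int.castRingHom F) a) := by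
  have h : ((Int.castRingHom F).mapMatrix).comp (rz σ).toRingHom =
      (rp F σ).toRingHom.comp (MonoidAlgebra.mapRingHom G (Int.castRingHom F)) := by
    refine MonoidAlgebra.ringHom_ext (fun r => ?_) fun g => ?_
    · ext x y
      simp [rz, rp, pz, pm]
    · ext x y
      simp [rz, rp, pz, pm]
  exact congrArg (fun f => f a) h

theorem rz_sum (a : MonoidAlgebra ℤ G) (x : X) : ∑ y, (rz σ a x y).natAbs ≤ nm a := by
  have h1 : ∀ y, rz σ a x y = ∑ g ∈ a.coeff.support, a.coeff g * (if x = σ g y then 1 else 0) := by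
    intro y
    rw [rz, MonoidAlgebra.lift_apply, Finsupp.sum, Matrix.sum_apply]
    rfl
  calc ∑ y, (rz σ a x y).natAbs
      ≤ ∑ y, ∑ g ∈ a.coeff.support, (a.coeff g).natAbs * (if x = σ g y then 1 else 0) := by
        refine Finset.sum_le_sum fun y _ => ?_
        rw [h1]
        refine (Int.natAbs_sum_le _ _).trans (Finset.sum_le_sum fun g _ => ?_)
        rw [Int.natAbs_mul]
        split_ifs <;> simp
    _ = ∑ g ∈ a.coeff.support, (a.coeff g).natAbs * ∑ y, (if x = σ g y then 1 else 0) := by
        rw [Finset.sum_comm]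
        refine Finset.sum_congr rfl fun g _ => ?_
        rw [Finset.mul_sum]
    _ = nm a := by
        refine Finset.sum_congr rfl fun g _ => ?_
        have h2 : ∑ y, (if x = σ g y then 1 else 0) = 1 := by
          rw [Finset.sum_eq_single ((σ g).symm x)]
          · simp
          · intro y _ hy
            rw [if_neg]
            intro h
            exact hy (by rw [h, Equiv.symm_apply_apply])
          · intro h
            exact absurd (Finset.mem_univ _) h
        rw [h2, mul_one]

end

section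

variable {G : Type} [Group G] (N : Subgroup G) [N.Normal] [Fintype (G ⧸ N)] [DecidableEq (G ⧸ N)] {m n : Type}
  [Fintype m] [Fintype n] (A : Matrix m n (MonoidAlgebra ℤ G))

/-- the integral matrix of `A` at the quotient `G/N` -/
noncomputable def Mz : Matrix (m × (G ⧸ N)) (n × (G ⧸ N)) ℤ :=
  Matrix.of fun x y => rz (qs N) (A x.1 y.1) x.2 y.2

theorem rk_eq_Mz (F : Type w) [Field F] : NBT.rk F N A = ((Mz N A).map (Int.cast : ℤ → F)).rank := by
  rw [rk_eq F N A]
  congr 1
  ext x y
  have h := congrFun (congrFun (rz_map (qs N) F (A x.1 y.1)) x.2) y.2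
  exact h.symm

omit [Fintype m] in
theorem Mz_sum (x : m × (G ⧸ N)) : ∑ y, (Mz N A x y).natAbs ≤ ∑ j, nm (A x.1 j) := by
  rw [Fintype.sum_prod_type]
  exact Finset.sum_le_sum fun j _ => rz_sum (qs N) (A x.1 j) x.2

end

theorem rk_le_rat {G : Type} [Group G] (N : Subgroup G) [N.Normal] [N.FiniteIndex] {m n : Type}
    [Fintype m] [Fintype n] (A : Matrix m n (MonoidAlgebra ℤ G)) (F : Type w) [Field F] :
    NBT.rk F N A ≤ NBT.rk ℚ N A := by
  classical
  let _ : Fintype (G ⧸ N) := Fintype.ofFinite _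
  rw [rk_eq_Mz N A F, rk_eq_Mz N A ℚ]
  exact rank_le_rat F _

/-- the rank depends only on the characteristic -/
theorem rk_zmod {G : Type} [Group G] (N : Subgroup G) [N.Normal] [N.FiniteIndex] {m n : Type}
    [Fintype m] [Fintype n] (A : Matrix m n (MonoidAlgebra ℤ G)) (F : Type w) [Field F] (p : ℕ) [Fact p.Prime] [CharP F p] :
    NBT.rk F N A = NBT.rk (ZMod p) N A := by
  classical
  let _ : Fintype (G ⧸ N) := Fintype.ofFinite _
  rw [rk_eq_Mz N A F, rk_eq_Mz N A (ZMod p)]
  exact rank_eq_zmod F p _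

/-- comparison of ranks in distinct prime characteristics and in characteristic zero -/
theorem rk_prod {G : Type} [Group G] (N : Subgroup G) [N.Normal] [N.FiniteIndex] {m n : Type}
    [Fintype m] [Fintype n] (A : Matrix m n (MonoidAlgebra ℤ G)) (K : ℕ) (hA : ∀ i, ∑ j, nm (A i j) ≤ K)
    {ι : Type} [Fintype ι] (F : ι → Type w) [∀ j, Field (F j)] (p : ι → ℕ)
    [∀ j, CharP (F j) (p j)] (hp : ∀ j, (p j).Prime) (hinj : Function.Injective p) :
    ∏ j, p j ^ (NBT.rk ℚ N A - NBT.rk (F j) N A) ≤ K ^ NBT.rk ℚ N A := by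
  classical
  let _ : Fintype (G ⧸ N) := Fintype.ofFinite _
  rw [rk_eq_Mz N A ℚ]
  have h := prod_rank (Mz N A) K (fun x => (Mz_sum N A x).trans (hA x.1)) F p hp hinj
  simp only [rk_eq_Mz N A (F _)]
  exact h

theorem rk_le_rows {G : Type} [Group G] (N : Subgroup G) [N.Normal] [N.FiniteIndex] {m n : Type}
    [Fintype m] [Fintype n] (A : Matrix m n (MonoidAlgebra ℤ G)) (F : Type w) [Field F] :
    NBT.rk F N A ≤ Fintype.card m * N.index := by
  classical
  let _ : Fintype (G ⧸ N) := Fintype.ofFinite _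
  rw [rk_eq_Mz N A F, Subgroup.index_eq_card, Nat.card_eq_fintype_card, ← Fintype.card_prod]
  exact rank_le_card_height _

theorem rk_charZero {G : Type} [Group G] (N : Subgroup G) [N.Normal] [N.FiniteIndex] {m n : Type}
    [Fintype m] [Fintype n] (A : Matrix m n (MonoidAlgebra ℤ G)) (F : Type w) [Field F] [CharZero F] :
    NBT.rk F N A = NBT.rk ℚ N A := by
  classical
  let _ : Fintype (G ⧸ N) := Fintype.ofFinite _
  rw [rk_eq_Mz N A F, rk_eq_Mz N A ℚ]
  exact rank_eq_rat F _

end APR
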