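import Pool.Agent.Lib.MP_83fbc5_gt.AP.Grp
import Pool.Agent.Lib.MP_83fbc5_gt.RFC.E8

/-!
# MP_83fbc5_gt, AP, module Lim: Betti numbers in different characteristics
-/

set_option autoImplicit false

namespace APR

open Matrix Module RFC Filter

universe w

section

variable {G : Type} [Group G] {D : ℕ} (R : NBT.FFR G D) (N : Subgroup G) [N.Normal] [N.FiniteIndex] (n : ℕ)

theorem betti_charZero (F : Type w) [Field F] [CharZero F] : NBT.betti F R N n = NBT.betti ℚ R N n := by
  cases n with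
  | zero =>
    have h1 := NBT.betti_zero F R N
    have h2 := NBT.betti_zero ℚ R N
    rw [rk_charZero N (R.d 0) F] at h1
    omega
  | succ n =>
    have h1 := NBT.betti_succ F R N n
    have h2 := NBT.betti_succ ℚ R N n
    rw [rk_charZero N (R.d n) F, rk_charZero N (R.d (n + 1)) F] at h1
    omega

/-- the Betti number depends only on the characteristic -/
theorem betti_zmod (F : Type w) [Field F] (p : ℕ) [Fact p.Prime] [CharP F p] :
    NBT.betti F R N n = NBT.betti (ZMod p) R N n := by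
  cases n with
  | zero =>
    have h1 := NBT.betti_zero F R N
    have h2 := NBT.betti_zero (ZMod p) R N
    rw [rk_zmod N (R.d 0) F p] at h1
    omega
  | succ n =>
    have h1 := NBT.betti_succ F R N n
    have h2 := NBT.betti_succ (ZMod p) R N n
    rw [rk_zmod N (R.d n) F p, rk_zmod N (R.d (n + 1)) F p] at h1
    omega

theorem betti_le (F : Type w) [Field F] : NBT.betti F R N n ≤ Fintype.card (R.ι n) * N.index := by
  cases n with
  | zero =>
    have h1 := NBT.betti_zero F R N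
    omega
  | succ n =>
    have h1 := NBT.betti_succ F R N n
    omega

theorem rat_le_betti (F : Type w) [Field F] : NBT.betti ℚ R N n ≤ NBT.betti F R N n := by
  cases n with
  | zero =>
    have h1 := NBT.betti_zero F R N
    have h2 := NBT.betti_zero ℚ R N
    have h3 := rk_le_rat N (R.d 0) F
    omega
  | succ n =>
    have h1 := NBT.betti_succ F R N n
    have h2 := NBT.betti_succ ℚ R N n
    have h3 := rk_le_rat N (R.d n) F
    have h4 := rk_le_rat N (R.d (n + 1)) F
    omega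

/-- comparison of Betti numbers in distinct prime characteristics and in characteristic zero -/
theorem betti_prod (K : ℕ) (hR : ∀ n i, ∑ j, nm (R.d n i j) ≤ K)
    {ι : Type} [Fintype ι] (F : ι → Type w) [∀ j, Field (F j)] (p : ι → ℕ)
    [∀ j, CharP (F j) (p j)] (hp : ∀ j, (p j).Prime) (hinj : Function.Injective p) :
    ∏ j, p j ^ (NBT.betti (F j) R N n - NBT.betti ℚ R N n) ≤
      K ^ (Fintype.card (R.ι n) * N.index - NBT.betti ℚ R N n) := by
  cases n with
  | zero =>
    have h2 := NBT.betti_zero ℚ R N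
    have h4 := rk_prod N (R.d 0) K (hR 0) F p hp hinj
    have e : ∀ j, NBT.betti (F j) R N 0 - NBT.betti ℚ R N 0 = NBT.rk ℚ N (R.d 0) - NBT.rk (F j) N (R.d 0) := by
      intro j
      have h1 := NBT.betti_zero (F j) R N
      have h3 := rk_le_rat N (R.d 0) (F j)
      omega
    have e' : Fintype.card (R.ι 0) * N.index - NBT.betti ℚ R N 0 = NBT.rk ℚ N (R.d 0) := by omega
    rw [e', Finset.prod_congr rfl fun j _ => by rw [e j]]
    exact h4
  | succ n =>
    have h2 := NBT.betti_succ ℚ R N n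
    have h4 := rk_prod N (R.d n) K (hR n) F p hp hinj
    have h6 := rk_prod N (R.d (n + 1)) K (hR (n + 1)) F p hp hinj
    have e : ∀ j, NBT.betti (F j) R N (n + 1) - NBT.betti ℚ R N (n + 1) =
        (NBT.rk ℚ N (R.d n) - NBT.rk (F j) N (R.d n)) +
          (NBT.rk ℚ N (R.d (n + 1)) - NBT.rk (F j) N (R.d (n + 1))) := by
      intro j
      have h1 := NBT.betti_succ (F j) R N n
      have h3 := rk_le_rat N (R.d n) (F j)
      have h5 := rk_le_rat N (R.d (n + 1)) (F j)
      omega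
    have e' : Fintype.card (R.ι (n + 1)) * N.index - NBT.betti ℚ R N (n + 1) =
        NBT.rk ℚ N (R.d n) + NBT.rk ℚ N (R.d (n + 1)) := by omega
    rw [e', pow_add, Finset.prod_congr rfl fun j _ => by rw [e j, pow_add], Finset.prod_mul_distrib]
    exact Nat.mul_le_mul h4 h6

end

/-- from the multiplicative to the logarithmic form -/
theorem log_form {ι : Type} [Fintype ι] {p x y : ι → ℕ} {K I z : ℕ} (hp : ∀ j, 2 ≤ p j) (hK : 1 ≤ K) (hI : 0 < I)
    (hxy : ∀ j, x j ≤ y j) (h : ∏ j, p j ^ (y j - x j) ≤ K ^ z) :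
    ∑ j, ((y j : ℝ) / I - (x j : ℝ) / I) * Real.log (p j) ≤ (z : ℝ) / I * Real.log K := by
  have hI' : (0 : ℝ) < I := by exact_mod_cast hI
  have hp' : ∀ j, (0 : ℝ) < p j := fun j => by
    have := hp j
    exact_mod_cast (by omega : 0 < p j)
  have hK' : (0 : ℝ) < K := by exact_mod_cast hK
  have h1 : ∏ j, (p j : ℝ) ^ (y j - x j) ≤ (K : ℝ) ^ z := by exact_mod_cast h
  have h2 := Real.log_le_log (Finset.prod_pos fun j _ => pow_pos (hp' j) _) h1
  rw [Real.log_pow, Real.log_prod (fun j _ => (pow_pos (hp' j) _).ne')] at h2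
  rw [div_mul_eq_mul_div, le_div_iff₀ hI', Finset.sum_mul]
  refine le_trans (le_of_eq (Finset.sum_congr rfl fun j _ => ?_)) h2
  rw [Real.log_pow, Nat.cast_sub (hxy j)]
  field_simp

/-- a limit of upper bounds -/
theorem ev_le {u v : ℕ → ℝ} {l : ℝ} (hv : Tendsto v atTop (nhds l)) (h : ∀ i, u i ≤ v i) {δ : ℝ} (hδ : 0 < δ) :
    ∀ᶠ i in atTop, u i ≤ l + δ := by
  filter_upwards [hv.eventually (gt_mem_nhds (show l < l + δ by linarith))] with i hi
  exact (h i).trans hi.le

theorem ev_ge {u v : ℕ → ℝ} {l : ℝ} (hv : Tendsto v atTop (nhds l)) (h : ∀ i, v i ≤ u i) {δ : ℝ} (hδ : 0 < δ) :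
    ∀ᶠ i in atTop, l - δ ≤ u i := by
  filter_upwards [hv.eventually (lt_mem_nhds (show l - δ < l by linarith))] with i hi
  exact hi.le.trans (h i)

/-- the inequality between integral limits -/
theorem int_lim {ι : Type} [Fintype ι] {u v : ι → ℕ → ℝ} {w : ℕ → ℝ} {r s : ι → ℤ} {t : ℤ} {k K : ℕ} (hk : 0 < k)
    (hK : 1 ≤ K) {p : ι → ℕ} (hp : ∀ j, 2 ≤ p j)
    (hu : ∀ j, Tendsto (u j) atTop (nhds ((r j : ℝ) / (k : ℝ)))) (hv : ∀ j, Tendsto (v j) atTop (nhds ((s j : ℝ) / (k : ℝ))))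
    (hw : Tendsto w atTop (nhds ((t : ℝ) / (k : ℝ))))
    (h1 : ∀ j i, v j i ≤ u j i) (h2 : ∀ i, ∑ j, (u j i - v j i) * Real.log (p j) ≤ w i * Real.log K) :
    (∀ j, s j ≤ r j) ∧ ((0 ≤ t) → ∏ j, p j ^ (r j - s j).toNat ≤ K ^ t.toNat) := by
  have hk' : (0 : ℝ) < k := by exact_mod_cast hk
  have h4 : ∀ j, s j ≤ r j := by
    intro j
    have h5 : (s j : ℝ) / k ≤ (r j : ℝ) / k := le_of_tendsto_of_tendsto' (hv j) (hu j) (h1 j)
    rw [div_le_div_iff_of_pos_right hk'] at h5
    exact_mod_cast h5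
  refine ⟨h4, fun ht => ?_⟩
  have h5 : ∑ j, ((r j : ℝ) / k - (s j : ℝ) / k) * Real.log (p j) ≤ (t : ℝ) / k * Real.log K :=
    le_of_tendsto_of_tendsto' (tendsto_finsetSum _ fun j _ => ((hu j).sub (hv j)).mul_const _)
      (hw.mul_const _) h2
  have h6 : ∑ j, ((r j : ℝ) - (s j : ℝ)) * Real.log (p j) ≤ (t : ℝ) * Real.log K := by
    rw [div_mul_eq_mul_div, le_div_iff₀ hk', Finset.sum_mul] at h5
    refine le_trans (le_of_eq (Finset.sum_congr rfl fun j _ => ?_)) h5
    field_simp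
  have hp' : ∀ j, (0 : ℝ) < p j := fun j => by
    have := hp j
    exact_mod_cast (by omega : 0 < p j)
  have hK' : (0 : ℝ) < K := by exact_mod_cast hK
  have h7 : Real.log (∏ j, (p j : ℝ) ^ (r j - s j).toNat) ≤ Real.log ((K : ℝ) ^ t.toNat) := by
    rw [Real.log_pow, Real.log_prod (fun j _ => (pow_pos (hp' j) _).ne')]
    refine le_trans (le_of_eq (Finset.sum_congr rfl fun j _ => ?_)) (h6.trans (le_of_eq ?_))
    · rw [Real.log_pow]
      congr 1
      have h8 : (((r j - s j).toNat : ℤ)) = r j - s j := Int.toNat_of_nonneg (by have := h4 j; omega)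
      have h9 : (((r j - s j).toNat : ℕ) : ℝ) = (((r j - s j).toNat : ℤ) : ℝ) := by push_cast; rfl
      rw [h9, h8]
      push_cast
      rfl
    · congr 1
      have h8 : ((t.toNat : ℤ)) = t := Int.toNat_of_nonneg ht
      have h9 : ((t.toNat : ℕ) : ℝ) = ((t.toNat : ℤ) : ℝ) := by push_cast; rfl
      rw [h9, h8]
  have h8 := (Real.log_le_log_iff (Finset.prod_pos fun j _ => pow_pos (hp' j) _) (pow_pos hK' _)).1 h7
  exact_mod_cast h8

end APR
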