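import Pool.Agent.Lib.MP_83fbc5_gt.AP.Star
import Pool.Agent.Lib.MP_83fbc5_gt.AP.Lim

/-!
# MP_83fbc5_gt, AP, module Luck: the approximation theorem of Lueck for ranks in characteristic zero
-/

set_option autoImplicit false

namespace APR

open Matrix Module RFC Filter

universe w

/-- every nontrivial element is in only finitely many of the subgroups -/
def Exhausting {G : Type} [Group G] (N : ℕ → Subgroup G) : Prop := ∀ g : G, g ≠ 1 → ∀ᶠ i in atTop, g ∉ N i

theorem kap_one_le {G : Type} [Group G] {m n : Type} [Fintype m] [Fintype n] (A : Matrix m n (MonoidAlgebra ℤ G)) :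
    (1 : ℝ) ≤ (kap A : ℝ) := by
  have h : 1 ≤ kap A := Nat.le_add_right _ _
  exact_mod_cast h

/-- one quotient -/
theorem one_quotient {G : Type} [Group G] (N : Subgroup G) [N.Normal] [N.FiniteIndex]
    {m n : Type} [Fintype m] [DecidableEq m] [Fintype n] (A : Matrix m n (MonoidAlgebra ℤ G)) (k : ℕ)
    (h : ∀ i, ∀ g ∈ ((((kap A : ℤ) • (1 : Matrix m m (MonoidAlgebra ℤ G)) - gram A) ^ k) i i).coeff.support, g ∈ N → g = 1)
    {ε : ℝ} (hε : 0 < ε) (hε' : ε < 1) :
    (Fintype.card m : ℝ) - (NBT.rk ℚ N A : ℝ) / (N.index : ℝ) ≤ (tau A k : ℝ) / (kap A : ℝ) ^ k ∧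
      (tau A k : ℝ) / (kap A : ℝ) ^ k ≤ ((Fintype.card m : ℝ) - (NBT.rk ℚ N A : ℝ) / (N.index : ℝ)) +
        Fintype.card m * (Real.log (kap A) / Real.log (1 / ε)) + Fintype.card m * (1 - ε / kap A) ^ k := by
  classical
  let _ : Fintype (G ⧸ N) := Fintype.ofFinite _
  obtain ⟨h1, h2, h3⟩ := gram_psd N A
  obtain ⟨h4, h5⟩ := ker_trace h1 (kap_one_le A) h3 k hε hε'
  rw [trace_gram N A k h] at h4 h5
  have hidx : N.index = Fintype.card (G ⧸ N) := by
    rw [Subgroup.index_eq_card, Nat.card_eq_fintype_card]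
  have hpos : (0 : ℝ) < N.index := by
    exact_mod_cast Nat.pos_of_ne_zero (Subgroup.FiniteIndex.index_ne_zero (H := N))
  have hle : NBT.rk ℚ N A ≤ Fintype.card m * N.index := by
    rw [← h2, hidx, ← Fintype.card_prod]
    exact rank_le_card_height _
  rw [h2, Fintype.card_prod, ← hidx, Nat.cast_sub hle, Nat.cast_mul] at h4 h5
  constructor
  · have h6 : (Fintype.card m : ℝ) - (NBT.rk ℚ N A : ℝ) / (N.index : ℝ) =
        ((Fintype.card m : ℝ) * N.index - NBT.rk ℚ N A) / N.index := by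
      rw [sub_div, mul_div_cancel_right₀ _ hpos.ne']
    rw [h6, div_le_iff₀ hpos]
    calc (Fintype.card m : ℝ) * N.index - NBT.rk ℚ N A ≤ (N.index : ℝ) * (tau A k : ℝ) / (kap A : ℝ) ^ k := h4
      _ = (tau A k : ℝ) / (kap A : ℝ) ^ k * N.index := by ring
  · refine le_of_mul_le_mul_right ?_ hpos
    calc (tau A k : ℝ) / (kap A : ℝ) ^ k * N.index = (N.index : ℝ) * (tau A k : ℝ) / (kap A : ℝ) ^ k := by ring
      _ ≤ _ := h5
      _ = _ := by
        have h7 : (NBT.rk ℚ N A : ℝ) / (N.index : ℝ) * N.index = NBT.rk ℚ N A := div_mul_cancel₀ _ hpos.ne'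
        rw [add_mul, add_mul, sub_mul, h7]
        ring

/-- the normalised ranks converge in characteristic zero -/
theorem luck {G : Type} [Group G] {m n : Type} [Fintype m] [Fintype n] (A : Matrix m n (MonoidAlgebra ℤ G)) :
    ∃ L : ℝ, ∀ (N : ℕ → Subgroup G) [∀ i, (N i).Normal] [∀ i, (N i).FiniteIndex], Exhausting N →
      Tendsto (fun i => (NBT.rk ℚ (N i) A : ℝ) / ((N i).index : ℝ)) atTop (nhds L) := by
  classical
  refine ⟨Fintype.card m - ⨅ k, (tau A k : ℝ) / (kap A : ℝ) ^ k, fun N _ _ hN => ?_⟩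
  set t : ℕ → ℝ := fun k => (tau A k : ℝ) / (kap A : ℝ) ^ k with ht
  set z : ℕ → ℝ := fun i => (Fintype.card m : ℝ) - (NBT.rk ℚ (N i) A : ℝ) / ((N i).index : ℝ) with hz
  have hsupp : ∀ k, ∀ᶠ i in atTop, ∀ a,
      ∀ g ∈ ((((kap A : ℤ) • (1 : Matrix m m (MonoidAlgebra ℤ G)) - gram A) ^ k) a a).coeff.support, g ∈ N i → g = 1 := by
    intro k
    rw [eventually_all]
    intro a
    rw [Filter.eventually_all_finset]
    intro g _
    by_cases hg : g = 1
    · exact Eventually.of_forall fun _ _ => hg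
    · filter_upwards [hN g hg] with i hi hi'
      exact absurd hi' hi
  have hκ := kap_one_le A
  have hκ0 : (0 : ℝ) < kap A := by linarith
  -- upper bounds
  have hub : ∀ k, ∀ᶠ i in atTop, z i ≤ t k := by
    intro k
    filter_upwards [hsupp k] with i hi
    exact (one_quotient (N i) A k hi (ε := 1 / 2) (by norm_num) (by norm_num)).1
  have hz0 : ∀ i, 0 ≤ z i := by
    intro i
    let _ : Fintype (G ⧸ N i) := Fintype.ofFinite _
    have hpos : (0 : ℝ) < (N i).index := by
      exact_mod_cast Nat.pos_of_ne_zero (Subgroup.FiniteIndex.index_ne_zero (H := N i))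
    have hle : NBT.rk ℚ (N i) A ≤ Fintype.card m * (N i).index := by
      rw [← (gram_psd (N i) A).2.1, Subgroup.index_eq_card, Nat.card_eq_fintype_card, ← Fintype.card_prod]
      exact rank_le_card_height _
    rw [hz]
    simp only [sub_nonneg]
    rw [div_le_iff₀ hpos]
    exact_mod_cast hle
  have ht0 : ∀ k, 0 ≤ t k := by
    intro k
    obtain ⟨i, hi⟩ := (hub k).exists
    exact (hz0 i).trans hi
  have hbdd : BddBelow (Set.range t) := ⟨0, by
    rintro _ ⟨k, rfl⟩
    exact ht0 k⟩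
  -- the main estimate
  have hmain : ∀ δ : ℝ, 0 < δ → ∃ k, ∀ᶠ i in atTop, t k ≤ z i + δ := by
    intro δ hδ
    obtain ⟨c, hc⟩ := exists_nat_gt (max 1 (Fintype.card m * Real.log (kap A) / (δ / 2)))
    have hc1 : (1 : ℝ) < c := lt_of_le_of_lt (le_max_left _ _) hc
    have hc2 : Fintype.card m * Real.log (kap A) / (δ / 2) < c := lt_of_le_of_lt (le_max_right _ _) hc
    have hε : 0 < Real.exp (-(c : ℝ)) := Real.exp_pos _
    have hε' : Real.exp (-(c : ℝ)) < 1 := by
      rw [Real.exp_lt_one_iff]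
      linarith
    have hlog : Real.log (1 / Real.exp (-(c : ℝ))) = c := by
      rw [one_div, ← Real.exp_neg, neg_neg, Real.log_exp]
    have hq0 : 0 ≤ 1 - Real.exp (-(c : ℝ)) / kap A := by
      rw [sub_nonneg, div_le_one hκ0]
      linarith
    have hq1 : 1 - Real.exp (-(c : ℝ)) / kap A < 1 := by
      have := div_pos hε hκ0
      linarith
    have h1 : Tendsto (fun k : ℕ => (Fintype.card m : ℝ) * (1 - Real.exp (-(c : ℝ)) / kap A) ^ k) atTop (nhds 0) := by
      have := (tendsto_pow_atTop_nhds_zero_of_lt_one hq0 hq1).const_mul (Fintype.card m : ℝ)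
      rwa [mul_zero] at this
    obtain ⟨k, hk⟩ := (h1.eventually (gt_mem_nhds (half_pos hδ))).exists
    refine ⟨k, ?_⟩
    filter_upwards [hsupp k] with i hi
    have h2 := (one_quotient (N i) A k hi hε hε').2
    rw [hlog] at h2
    have h3 : (Fintype.card m : ℝ) * (Real.log (kap A) / c) ≤ δ / 2 := by
      rw [div_lt_iff₀ (half_pos hδ)] at hc2
      rw [← mul_div_assoc, div_le_iff₀ (by linarith)]
      linarith
    change t k ≤ z i + _ + _ at h2
    linarith
  have hlim : Tendsto z atTop (nhds (⨅ k, t k)) := by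
    rw [Metric.tendsto_atTop']
    intro δ hδ
    obtain ⟨k, hk⟩ := hmain (δ / 2) (half_pos hδ)
    obtain ⟨k', hk'⟩ := exists_lt_of_ciInf_lt (lt_add_of_pos_right (⨅ k, t k) hδ)
    obtain ⟨n, hn⟩ := eventually_atTop.1 (hk.and (hub k'))
    refine ⟨n, fun i hi => ?_⟩
    obtain ⟨h1, h2⟩ := hn i hi.le
    have h3 := ciInf_le hbdd k
    rw [Real.dist_eq, abs_lt]
    constructor <;> linarith
  have h := hlim.const_sub (Fintype.card m : ℝ)
  refine h.congr fun i => ?_
  rw [hz]
  simp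

end APR
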