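import Pool.Agent.Lib.MP_83fbc5_gt.AP.Luck
import Pool.Agent.Lib.MP_83fbc5_gt.RFC.W1

/-!
# MP_83fbc5_gt, AP, module Main: the limits in all characteristics
-/

set_option autoImplicit false

namespace APR

open Matrix Module RFC Filter

universe w

theorem rich_exhausting {G : Type} [Group G] {H : Subgroup G} {N : ℕ → Subgroup G} (hN : RichIn H N) : Exhausting N := by
  intro g hg
  by_cases hgH : g ∈ H
  · have hne : Subgroup.zpowers g ≠ ⊥ := fun h => hg (Subgroup.zpowers_eq_bot.1 h)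
    have hfg : (Subgroup.zpowers g).FG := by
      rw [Subgroup.zpowers_eq_closure]
      exact ⟨{g}, by simp⟩
    obtain ⟨φ, hφ, hm⟩ := hN.2 (Subgroup.zpowers g) (Subgroup.zpowers_le.2 hgH) hfg hne
    set g' : Subgroup.zpowers g := ⟨g, Subgroup.mem_zpowers g⟩ with hg'
    have hne' : Multiplicative.toAdd (φ g') ≠ 0 := by
      intro h0
      obtain ⟨x, hx⟩ := hφ (Multiplicative.ofAdd 1)
      obtain ⟨j, hj⟩ := Subgroup.mem_zpowers_iff.1 x.2
      have h1 : x = g' ^ j := Subtype.ext (by rw [← hj]; rfl)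
      rw [h1, map_zpow] at hx
      have h2 := congrArg Multiplicative.toAdd hx
      rw [toAdd_zpow, h0, smul_zero] at h2
      exact zero_ne_one h2
    obtain ⟨m, hmn, hm⟩ := hm (Multiplicative.toAdd (φ g')).natAbs
    filter_upwards [hm] with i hi hgi
    have h1 := hi g' hgi
    have h2 := Int.natAbs_dvd_natAbs.2 h1
    rw [Int.natAbs_natCast] at h2
    have h3 := Nat.le_of_dvd (Int.natAbs_pos.2 hne') h2
    omega
  · filter_upwards [hN.1] with i hi hgi
    exact hgH (hi hgi)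

theorem exhausting_chain {G : Type} [Group G] (C : NBT.Chain G) : Exhausting C.N := by
  intro g hg
  have h : ∃ i, g ∉ C.N i := by
    by_contra hcon
    push Not at hcon
    have h1 : g ∈ ⨅ i, C.N i := Subgroup.mem_iInf.2 hcon
    rw [C.bot, Subgroup.mem_bot] at h1
    exact hg h1
  obtain ⟨i, hi⟩ := h
  filter_upwards [eventually_ge_atTop i] with j hj hgj
  exact hi (C.anti hj hgj)

theorem betti_luck {G : Type} [Group G] {D : ℕ} (R : NBT.FFR G D) (n : ℕ) :
    ∃ L : ℝ, ∀ (N : ℕ → Subgroup G) [∀ i, (N i).Normal] [∀ i, (N i).FiniteIndex], Exhausting N →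
      Tendsto (fun i => (NBT.betti ℚ R (N i) n : ℝ) / ((N i).index : ℝ)) atTop (nhds L) := by
  cases n with
  | zero =>
    obtain ⟨r, hr⟩ := luck (R.d 0)
    refine ⟨(Fintype.card (R.ι 0) : ℝ) - r, fun N n1 f1 hN => ?_⟩
    refine ((tendsto_const_nhds (x := (Fintype.card (R.ι 0) : ℝ))).sub (hr N hN)).congr fun i => ?_
    have hi0 : ((N i).index : ℝ) ≠ 0 := by exact_mod_cast Subgroup.FiniteIndex.index_ne_zero
    have h2 : (NBT.betti ℚ R (N i) 0 : ℝ) + (NBT.rk ℚ (N i) (R.d 0) : ℝ) =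
        (Fintype.card (R.ι 0) : ℝ) * ((N i).index : ℝ) := by
      exact_mod_cast NBT.betti_zero ℚ R (N i)
    rw [eq_div_iff hi0, sub_mul, div_mul_cancel₀ _ hi0]
    linarith
  | succ n =>
    obtain ⟨r, hr⟩ := luck (R.d n)
    obtain ⟨r', hr'⟩ := luck (R.d (n + 1))
    refine ⟨(Fintype.card (R.ι (n + 1)) : ℝ) - r - r', fun N n1 f1 hN => ?_⟩
    refine (((tendsto_const_nhds (x := (Fintype.card (R.ι (n + 1)) : ℝ))).sub (hr N hN)).sub
      (hr' N hN)).congr fun i => ?_
    have hi0 : ((N i).index : ℝ) ≠ 0 := by exact_mod_cast Subgroup.FiniteIndex.index_ne_zero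
    have h2 : (NBT.betti ℚ R (N i) (n + 1) : ℝ) + (NBT.rk ℚ (N i) (R.d n) : ℝ) +
        (NBT.rk ℚ (N i) (R.d (n + 1)) : ℝ) =
        (Fintype.card (R.ι (n + 1)) : ℝ) * ((N i).index : ℝ) := by
      exact_mod_cast NBT.betti_succ ℚ R (N i) n
    rw [eq_div_iff hi0, sub_mul, sub_mul, div_mul_cancel₀ _ hi0, div_mul_cancel₀ _ hi0]
    linarith

/-- the error term in the limit, uniform in the characteristic -/
theorem ev_unif {v : ℕ → ℝ} {L a lK : ℝ} (hv : Tendsto v atTop (nhds L)) (hlK : 0 ≤ lK) {δ : ℝ} (hδ : 0 < δ) :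
    ∀ᶠ i in atTop, L - δ ≤ v i ∧ v i ≤ L + δ ∧ ∀ p : ℕ, p.Prime → ∀ u : ℝ, (u - v i) * Real.log p ≤ (a - v i) * lK →
      u ≤ L + (a - L) * (lK / Real.log p) + δ := by
  have hl2 : 0 < Real.log 2 := Real.log_pos (by norm_num)
  have hq : 0 < 1 + lK / Real.log 2 := by positivity
  set η : ℝ := δ / (1 + lK / Real.log 2) with hη
  have hη0 : 0 < η := div_pos hδ hq
  have hηδ : η ≤ δ := by
    rw [hη, div_le_iff₀ hq]
    have : 0 ≤ δ * (lK / Real.log 2) := by positivity
    linarith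
  filter_upwards [hv.eventually (lt_mem_nhds (show L - η < L by linarith)),
    hv.eventually (gt_mem_nhds (show L < L + η by linarith))] with i h1 h2
  refine ⟨by linarith, by linarith, fun p hp u hu => ?_⟩
  have hlp : 0 < Real.log p := Real.log_pos (by exact_mod_cast hp.one_lt)
  have hl2p : Real.log 2 ≤ Real.log p := Real.log_le_log (by norm_num) (by exact_mod_cast hp.two_le)
  rw [← le_div_iff₀ hlp, mul_div_assoc] at hu
  have hq1 : lK / Real.log p ≤ lK / Real.log 2 := div_le_div_of_nonneg_left hlK hl2 hl2p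
  have hq0 : 0 ≤ lK / Real.log p := div_nonneg hlK hlp.le
  have h3 : (v i - L) * (1 - lK / Real.log p) ≤ δ := by
    have h4 : |(v i - L) * (1 - lK / Real.log p)| ≤ η * (1 + lK / Real.log 2) := by
      rw [abs_mul]
      refine mul_le_mul ?_ ?_ (abs_nonneg _) hη0.le
      · rw [abs_le]
        constructor <;> linarith
      · rw [abs_le]
        constructor <;> linarith
    rw [hη, div_mul_cancel₀ _ hq.ne'] at h4
    exact (le_abs_self _).trans h4
  linarith

theorem betti_limit {G : Type} [Group G] {D : ℕ} (R : NBT.FFR G D) (K : ℕ) (hK : 1 ≤ K)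
    (hR : ∀ n i, ∑ j, nm (R.d n i j) ≤ K) (n : ℕ) :
    ∃ L : ℝ, ∀ (N : ℕ → Subgroup G) [∀ i, (N i).Normal] [∀ i, (N i).FiniteIndex], Exhausting N →
      (∀ (F : Type w) [Field F] [CharZero F],
        Tendsto (fun i => (NBT.betti F R (N i) n : ℝ) / ((N i).index : ℝ)) atTop (nhds L)) ∧
      ∀ δ : ℝ, 0 < δ → ∀ᶠ i in atTop, ∀ (F : Type w) [Field F] (p : ℕ) [CharP F p], p.Prime →
        L - δ ≤ (NBT.betti F R (N i) n : ℝ) / ((N i).index : ℝ) ∧
          (NBT.betti F R (N i) n : ℝ) / ((N i).index : ℝ) ≤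
            L + (Fintype.card (R.ι n) - L) * (Real.log K / Real.log p) + δ := by
  obtain ⟨L, hL⟩ := betti_luck R n
  refine ⟨L, fun N _ _ hN => ⟨fun F _ _ => ?_, fun δ hδ => ?_⟩⟩
  · refine (hL N hN).congr fun i => ?_
    rw [betti_charZero R (N i) n F]
  · have hIpos : ∀ i, 0 < (N i).index := fun i => Nat.pos_of_ne_zero Subgroup.FiniteIndex.index_ne_zero
    have hlK : 0 ≤ Real.log K := Real.log_nonneg (by exact_mod_cast hK)
    filter_upwards [ev_unif (a := (Fintype.card (R.ι n) : ℝ)) (hL N hN) hlK hδ] with i hi F _ p _ hp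
    obtain ⟨h1, -, h3⟩ := hi
    constructor
    · refine h1.trans ?_
      have h := rat_le_betti R (N i) n F
      gcongr
    · refine h3 p hp _ ?_
      have h6 := log_form (ι := Unit) (p := fun _ => p) (x := fun _ => NBT.betti ℚ R (N i) n)
        (y := fun _ => NBT.betti F R (N i) n) (fun _ => hp.two_le) hK (hIpos i)
        (fun _ => rat_le_betti R (N i) n F)
        (betti_prod R (N i) n K hR (fun _ : Unit => F) (fun _ => p) (fun _ => hp) (fun _ _ _ => rfl))
      have hI' : ((N i).index : ℝ) ≠ 0 := by exact_mod_cast (hIpos i).ne'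
      rw [Nat.cast_sub (betti_le R (N i) n ℚ), Nat.cast_mul, sub_div, mul_div_cancel_right₀ _ hI'] at h6
      simpa using h6

theorem rank_limit {G : Type} [Group G] {m n : Type} [Fintype m] [Fintype n] (A : Matrix m n (MonoidAlgebra ℤ G))
    (K : ℕ) (hK : 1 ≤ K) (hA : ∀ i, ∑ j, nm (A i j) ≤ K) :
    ∃ L : ℝ, ∀ (N : ℕ → Subgroup G) [∀ i, (N i).Normal] [∀ i, (N i).FiniteIndex], Exhausting N →
      (∀ (F : Type w) [Field F] [CharZero F],
        Tendsto (fun i => (NBT.rk F (N i) A : ℝ) / ((N i).index : ℝ)) atTop (nhds L)) ∧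
      ∀ δ : ℝ, 0 < δ → ∀ᶠ i in atTop, ∀ (F : Type w) [Field F] (p : ℕ) [CharP F p], p.Prime →
        L - L * (Real.log K / Real.log p) - δ ≤ (NBT.rk F (N i) A : ℝ) / ((N i).index : ℝ) ∧
          (NBT.rk F (N i) A : ℝ) / ((N i).index : ℝ) ≤ L + δ := by
  obtain ⟨L, hL⟩ := luck A
  refine ⟨L, fun N _ _ hN => ⟨fun F _ _ => ?_, fun δ hδ => ?_⟩⟩
  · refine (hL N hN).congr fun i => ?_
    rw [rk_charZero (N i) A F]
  · have hIpos : ∀ i, 0 < (N i).index := fun i => Nat.pos_of_ne_zero Subgroup.FiniteIndex.index_ne_zero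
    have hlK : 0 ≤ Real.log K := Real.log_nonneg (by exact_mod_cast hK)
    filter_upwards [ev_unif (a := 0) (hL N hN).neg hlK hδ] with i hi F _ p _ hp
    obtain ⟨h1, -, h3⟩ := hi
    constructor
    · have h6 := log_form (ι := Unit) (p := fun _ => p) (x := fun _ => NBT.rk F (N i) A)
        (y := fun _ => NBT.rk ℚ (N i) A) (fun _ => hp.two_le) hK (hIpos i)
        (fun _ => rk_le_rat (N i) A F)
        (rk_prod (N i) A K hA (fun _ : Unit => F) (fun _ => p) (fun _ => hp) (fun _ _ _ => rfl))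
      rw [Fintype.sum_unique] at h6
      have h7 := h3 p hp (-((NBT.rk F (N i) A : ℝ) / ((N i).index : ℝ)))
        (le_trans (le_of_eq (by ring)) (h6.trans (le_of_eq (by ring))))
      linarith
    · have h : (NBT.rk F (N i) A : ℝ) / ((N i).index : ℝ) ≤ (NBT.rk ℚ (N i) A : ℝ) / ((N i).index : ℝ) := by
        have h := rk_le_rat (N i) A F
        gcongr
      linarith

end APR
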