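import Mathlib

/-!
# MP_83fbc5_gt, AP, module Minor: ranks of integer matrices over fields of different characteristics
-/

set_option autoImplicit false

namespace APR

open Matrix Module

universe w

/-- every matrix over a field has a nonvanishing minor whose size is the rank -/
theorem exists_minor {m n : Type} [Fintype m] [Fintype n] {K : Type w} [Field K] (M : Matrix m n K) :
    ∃ (s : Fin M.rank → m) (t : Fin M.rank → n), (M.submatrix s t).det ≠ 0 := by
  classical
  -- rows
  have hrow : ∀ {a b : Type} [Fintype a] [Fintype b] (A : Matrix a b K),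
      ∃ s : Fin A.rank → a, LinearIndependent K (A.submatrix s id).row := by
    intro a b _ _ A
    obtain ⟨f, hf, -, hli⟩ := Submodule.exists_fun_fin_finrank_span_eq K (Set.range A.row)
    choose s hs using hf
    refine ⟨fun i => s (Fin.cast A.rank_eq_finrank_span_row i), ?_⟩
    have h : (A.submatrix (fun i => s (Fin.cast A.rank_eq_finrank_span_row i)) id).row =
        fun i => f (Fin.cast A.rank_eq_finrank_span_row i) := by
      funext i
      rw [← hs (Fin.cast A.rank_eq_finrank_span_row i)]
      rfl
    rw [h]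
    exact hli.comp _ (Fin.cast_injective _)
  obtain ⟨s, hs⟩ := hrow M
  have hr : (M.submatrix s id)ᵀ.rank = M.rank := by
    rw [rank_transpose, hs.rank_matrix, Fintype.card_fin]
  obtain ⟨t, ht⟩ := hrow (M.submatrix s id)ᵀ
  refine ⟨s, fun i => t (Fin.cast hr.symm i), ?_⟩
  have h1 : LinearIndependent K (((M.submatrix s fun i => t (Fin.cast hr.symm i))ᵀ).row) := by
    have h2 := ht.comp (Fin.cast hr.symm) (Fin.cast_injective _)
    exact h2
  rw [linearIndependent_rows_iff_isUnit] at h1
  have h3 := (isUnit_iff_isUnit_det _).1 h1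
  rw [det_transpose] at h3
  exact h3.ne_zero

theorem le_rank_of_minor {m n : Type} [Fintype m] [Fintype n] {K : Type w} [Field K] (M : Matrix m n K)
    {k : ℕ} (s : Fin k → m) (t : Fin k → n) (h : (M.submatrix s t).det ≠ 0) : k ≤ M.rank := by
  have h1 := rank_submatrix_le M s t
  rw [rank_of_det_ne_zero h, Fintype.card_fin] at h1
  exact h1

/-- the minors of the image of an integer matrix -/
theorem det_cast {m n : Type} {K : Type w} [Field K] (M : Matrix m n ℤ) {k : ℕ} (s : Fin k → m) (t : Fin k → n) :
    ((M.map (Int.cast : ℤ → K)).submatrix s t).det = (((M.submatrix s t).det : ℤ) : K) := by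
  have h := (Int.castRingHom K).map_det (M.submatrix s t)
  exact h.symm

/-- comparison of ranks by the vanishing of integers -/
theorem rank_le_of_cast {m n : Type} [Fintype m] [Fintype n] {K : Type w} [Field K] {L : Type} [Field L]
    (h : ∀ z : ℤ, (z : L) = 0 → (z : K) = 0) (M : Matrix m n ℤ) :
    (M.map (Int.cast : ℤ → K)).rank ≤ (M.map (Int.cast : ℤ → L)).rank := by
  obtain ⟨s, t, hst⟩ := exists_minor (M.map (Int.cast : ℤ → K))
  rw [det_cast] at hst
  refine le_rank_of_minor _ s t ?_
  rw [det_cast]
  exact fun h' => hst (h _ h')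

theorem rank_le_of_cast' {m n : Type} [Fintype m] [Fintype n] {K : Type w} [Field K] {L : Type} [Field L]
    (h : ∀ z : ℤ, (z : K) = 0 → (z : L) = 0) (M : Matrix m n ℤ) :
    (M.map (Int.cast : ℤ → L)).rank ≤ (M.map (Int.cast : ℤ → K)).rank := by
  obtain ⟨s, t, hst⟩ := exists_minor (M.map (Int.cast : ℤ → L))
  rw [det_cast] at hst
  refine le_rank_of_minor _ s t ?_
  rw [det_cast]
  exact fun h' => hst (h _ h')

/-- the rank over any field is at most the rational rank -/
theorem rank_le_rat {m n : Type} [Fintype m] [Fintype n] (K : Type w) [Field K] (M : Matrix m n ℤ) :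
    (M.map (Int.cast : ℤ → K)).rank ≤ (M.map (Int.cast : ℤ → ℚ)).rank := by
  refine rank_le_of_cast (fun z hz => ?_) M
  have h : z = 0 := by exact_mod_cast hz
  rw [h, Int.cast_zero]

/-- in characteristic zero the rank is the rational rank -/
theorem rank_eq_rat {m n : Type} [Fintype m] [Fintype n] (K : Type w) [Field K] [CharZero K] (M : Matrix m n ℤ) :
    (M.map (Int.cast : ℤ → K)).rank = (M.map (Int.cast : ℤ → ℚ)).rank := by
  refine le_antisymm (rank_le_rat K M) (rank_le_of_cast' (fun z hz => ?_) M)
  have h : z = 0 := by exact_mod_cast hz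
  rw [h, Int.cast_zero]

/-- in characteristic `p` the rank is the rank over `ZMod p` -/
theorem rank_eq_zmod {m n : Type} [Fintype m] [Fintype n] (K : Type w) [Field K] (p : ℕ) [Fact p.Prime] [CharP K p]
    (M : Matrix m n ℤ) :
    (M.map (Int.cast : ℤ → K)).rank = (M.map (Int.cast : ℤ → ZMod p)).rank := by
  refine le_antisymm (rank_le_of_cast (fun z hz => ?_) M) (rank_le_of_cast' (fun z hz => ?_) M)
  · rw [CharP.intCast_eq_zero_iff (ZMod p) p] at hz
    rwa [CharP.intCast_eq_zero_iff K p]
  · rw [CharP.intCast_eq_zero_iff K p] at hz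
    rwa [CharP.intCast_eq_zero_iff (ZMod p) p]

end APR
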