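import Pool.Agent.Lib.MP_83fbc5_gt.AP.Main

/-!
# MP_83fbc5_gt, AP, module Rich: the limits along rich sequences in all characteristics
-/

set_option autoImplicit false

namespace APR

open Matrix Module RFC Filter

universe w

section

variable {G : Type} [Group G] [Group.FG G] (H : Subgroup G) [H.FiniteIndex]

theorem exists_rk {m n : Type} [Fintype m] [Fintype n] (A : Matrix m n (MonoidAlgebra ℤ G)) (p : ℕ) :
    ∃ r : ℕ, (∀ (F : Type w) [Field F] [CharP F p] (N : ℕ → Subgroup G) [∀ i, (N i).Normal] [∀ i, (N i).FiniteIndex],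
      RichIn H N → Tendsto (fun i => (NBT.rk F (N i) A : ℝ) / ((N i).index : ℝ)) atTop (nhds ((r : ℝ) / (H.index : ℝ)))) ∧
      (∀ (F : Type) [Field F] [CharP F p] (N : ℕ → Subgroup G) [∀ i, (N i).Normal] [∀ i, (N i).FiniteIndex],
      RichIn H N → Tendsto (fun i => (NBT.rk F (N i) A : ℝ) / ((N i).index : ℝ)) atTop (nhds ((r : ℝ) / (H.index : ℝ)))) := by
  by_cases hp : p.Prime
  · have _ : Fact p.Prime := ⟨hp⟩
    obtain ⟨r, hr⟩ := conv_rk' (ZMod p) H A
    refine ⟨r, fun F _ _ N _ _ hN => ?_, fun F _ _ N _ _ hN => ?_⟩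
    · exact (hr N hN).congr fun i => by rw [rk_zmod (N i) A F p]
    · exact (hr N hN).congr fun i => by rw [rk_zmod (N i) A F p]
  · by_cases hp0 : p = 0
    · subst hp0
      obtain ⟨r, hr⟩ := conv_rk' ℚ H A
      refine ⟨r, fun F _ _ N _ _ hN => ?_, fun F _ _ N _ _ hN => ?_⟩
      · have _ : CharZero F := CharP.charP_to_charZero F
        exact (hr N hN).congr fun i => by rw [rk_charZero (N i) A F]
      · have _ : CharZero F := CharP.charP_to_charZero F
        exact (hr N hN).congr fun i => by rw [rk_charZero (N i) A F]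
    · refine ⟨0, fun F _ _ N _ _ hN => ?_, fun F _ _ N _ _ hN => ?_⟩
      · exact absurd (CharP.char_is_prime_or_zero F p) (by tauto)
      · exact absurd (CharP.char_is_prime_or_zero F p) (by tauto)

/-- the limits of the normalised ranks along rich sequences in all characteristics -/
theorem rank_rich {m n : Type} [Fintype m] [Fintype n] (A : Matrix m n (MonoidAlgebra ℤ G)) (K : ℕ) (hK : 1 ≤ K)
    (hA : ∀ i, ∑ j, nm (A i j) ≤ K) :
    ∃ r : ℕ → ℕ, (∀ (F : Type w) [Field F] (p : ℕ) [CharP F p] (N : ℕ → Subgroup G) [∀ i, (N i).Normal]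
      [∀ i, (N i).FiniteIndex], RichIn H N →
        Tendsto (fun i => (NBT.rk F (N i) A : ℝ) / ((N i).index : ℝ)) atTop (nhds ((r p : ℝ) / (H.index : ℝ)))) ∧
      (∀ p, p.Prime → r p ≤ r 0) ∧
      ∀ S : Finset ℕ, (∀ p ∈ S, p.Prime) → ∏ p ∈ S, p ^ (r 0 - r p) ≤ K ^ r 0 := by
  classical
  by_cases hex : ∃ N0 : ℕ → Subgroup G, (∀ i, (N0 i).Normal) ∧ (∀ i, (N0 i).FiniteIndex) ∧ RichIn H N0
  · obtain ⟨N, n0, f0, hN⟩ := hex
    choose r hr hr' using exists_rk.{w} H A
    have hk : 0 < H.index := Nat.pos_of_ne_zero Subgroup.FiniteIndex.index_ne_zero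
    have hIpos : ∀ i, 0 < (N i).index := fun i => Nat.pos_of_ne_zero Subgroup.FiniteIndex.index_ne_zero
    have h0 : Tendsto (fun i => (NBT.rk ℚ (N i) A : ℝ) / ((N i).index : ℝ)) atTop
        (nhds (((r 0 : ℤ) : ℝ) / (H.index : ℝ))) := by
      rw [Int.cast_natCast]
      exact hr' 0 ℚ N hN
    have key : ∀ S : Finset ℕ, (∀ p ∈ S, p.Prime) → (∀ p ∈ S, r p ≤ r 0) ∧ ∏ p ∈ S, p ^ (r 0 - r p) ≤ K ^ r 0 := by
      intro S hS
      have hfact : ∀ j : S, Fact (j : ℕ).Prime := fun j => ⟨hS j j.2⟩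
      have h1 := int_lim (ι := S) (u := fun _ i => (NBT.rk ℚ (N i) A : ℝ) / ((N i).index : ℝ))
        (v := fun j i => (NBT.rk (ZMod (j : ℕ)) (N i) A : ℝ) / ((N i).index : ℝ))
        (w := fun i => (NBT.rk ℚ (N i) A : ℝ) / ((N i).index : ℝ)) (r := fun _ => (r 0 : ℤ))
        (s := fun j => (r (j : ℕ) : ℤ)) (t := (r 0 : ℤ)) hk hK (p := fun j => (j : ℕ)) (fun j => (hS j j.2).two_le)
        (fun _ => h0) (fun j => by
          simp only [Int.cast_natCast]
          exact hr' (j : ℕ) (ZMod (j : ℕ)) N hN) h0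
        (fun j i => by
          have h := rk_le_rat (N i) A (ZMod (j : ℕ))
          gcongr)
        (fun i => log_form (y := fun _ => NBT.rk ℚ (N i) A) (fun j => (hS j j.2).two_le) hK (hIpos i)
          (fun j => rk_le_rat (N i) A (ZMod (j : ℕ)))
          (rk_prod (N i) A K hA (fun j : S => ZMod (j : ℕ)) (fun j => (j : ℕ)) (fun j => hS j j.2) Subtype.val_injective))
      refine ⟨fun p hp => ?_, ?_⟩
      · have h2 := h1.1 ⟨p, hp⟩
        exact_mod_cast h2
      · have h2 := h1.2 (Int.natCast_nonneg _)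
        rw [Int.toNat_natCast] at h2
        rw [← Finset.prod_coe_sort]
        refine le_trans (le_of_eq (Finset.prod_congr rfl fun j _ => ?_)) h2
        rw [← Int.toNat_sub]
    exact ⟨r, fun F _ p _ N _ _ hN => hr p F N hN, fun p hp => (key {p} (by simpa using hp)).1 p (by simp),
      fun S hS => (key S hS).2⟩
  · refine ⟨fun _ => 0, fun F _ p _ N _ _ hN => absurd ⟨N, inferInstance, inferInstance, hN⟩ hex, fun p _ => le_rfl,
      fun S _ => by simp⟩

theorem exists_betti {D : ℕ} (R : NBT.FFR G D) (n p : ℕ) :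
    ∃ r : ℤ, (∀ (F : Type w) [Field F] [CharP F p] (N : ℕ → Subgroup G) [∀ i, (N i).Normal] [∀ i, (N i).FiniteIndex],
      RichIn H N → Tendsto (fun i => (NBT.betti F R (N i) n : ℝ) / ((N i).index : ℝ)) atTop (nhds ((r : ℝ) / (H.index : ℝ)))) ∧
      (∀ (F : Type) [Field F] [CharP F p] (N : ℕ → Subgroup G) [∀ i, (N i).Normal] [∀ i, (N i).FiniteIndex],
      RichIn H N → Tendsto (fun i => (NBT.betti F R (N i) n : ℝ) / ((N i).index : ℝ)) atTop (nhds ((r : ℝ) / (H.index : ℝ)))) := by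
  by_cases hp : p.Prime
  · have _ : Fact p.Prime := ⟨hp⟩
    obtain ⟨r, hr⟩ := conv_betti' (ZMod p) H R n
    refine ⟨r, fun F _ _ N _ _ hN => ?_, fun F _ _ N _ _ hN => ?_⟩
    · exact (hr N hN).congr fun i => by rw [betti_zmod R (N i) n F p]
    · exact (hr N hN).congr fun i => by rw [betti_zmod R (N i) n F p]
  · by_cases hp0 : p = 0
    · subst hp0
      obtain ⟨r, hr⟩ := conv_betti' ℚ H R n
      refine ⟨r, fun F _ _ N _ _ hN => ?_, fun F _ _ N _ _ hN => ?_⟩
      · have _ : CharZero F := CharP.charP_to_charZero F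
        exact (hr N hN).congr fun i => by rw [betti_charZero R (N i) n F]
      · have _ : CharZero F := CharP.charP_to_charZero F
        exact (hr N hN).congr fun i => by rw [betti_charZero R (N i) n F]
    · refine ⟨0, fun F _ _ N _ _ hN => ?_, fun F _ _ N _ _ hN => ?_⟩
      · exact absurd (CharP.char_is_prime_or_zero F p) (by tauto)
      · exact absurd (CharP.char_is_prime_or_zero F p) (by tauto)

/-- the limits of the normalised Betti numbers along rich sequences in all characteristics -/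
theorem betti_rich {D : ℕ} (R : NBT.FFR G D) (K : ℕ) (hK : 1 ≤ K) (hR : ∀ n i, ∑ j, nm (R.d n i j) ≤ K) (n : ℕ) :
    ∃ r : ℕ → ℕ, (∀ (F : Type w) [Field F] (p : ℕ) [CharP F p] (N : ℕ → Subgroup G) [∀ i, (N i).Normal]
      [∀ i, (N i).FiniteIndex], RichIn H N →
        Tendsto (fun i => (NBT.betti F R (N i) n : ℝ) / ((N i).index : ℝ)) atTop (nhds ((r p : ℝ) / (H.index : ℝ)))) ∧
      (∀ p, p.Prime → r 0 ≤ r p) ∧ r 0 ≤ Fintype.card (R.ι n) * H.index ∧
      ∀ S : Finset ℕ, (∀ p ∈ S, p.Prime) →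
        ∏ p ∈ S, p ^ (r p - r 0) ≤ K ^ (Fintype.card (R.ι n) * H.index - r 0) := by
  classical
  by_cases hex : ∃ N0 : ℕ → Subgroup G, (∀ i, (N0 i).Normal) ∧ (∀ i, (N0 i).FiniteIndex) ∧ RichIn H N0
  · obtain ⟨N, n0, f0, hN⟩ := hex
    choose r hr hr' using exists_betti.{w} H R n
    have hk : 0 < H.index := Nat.pos_of_ne_zero Subgroup.FiniteIndex.index_ne_zero
    have hk' : (0 : ℝ) < H.index := by exact_mod_cast hk
    have hIpos : ∀ i, 0 < (N i).index := fun i => Nat.pos_of_ne_zero Subgroup.FiniteIndex.index_ne_zero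
    have h0 : Tendsto (fun i => (NBT.betti ℚ R (N i) n : ℝ) / ((N i).index : ℝ)) atTop
        (nhds ((r 0 : ℝ) / (H.index : ℝ))) := hr' 0 ℚ N hN
    have hr0 : 0 ≤ r 0 := by
      have h1 : 0 ≤ (r 0 : ℝ) / (H.index : ℝ) := ge_of_tendsto' h0 fun i => by positivity
      have h2 : 0 ≤ (r 0 : ℝ) := by
        by_contra hcon
        push Not at hcon
        exact absurd h1 (not_le.2 (div_neg_of_neg_of_pos hcon hk'))
      exact_mod_cast h2
    have hra : r 0 ≤ (Fintype.card (R.ι n) * H.index : ℕ) := by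
      have h1 : (r 0 : ℝ) / (H.index : ℝ) ≤ Fintype.card (R.ι n) := by
        refine le_of_tendsto' h0 fun i => ?_
        have hI' : (0 : ℝ) < (N i).index := by exact_mod_cast hIpos i
        rw [div_le_iff₀ hI']
        exact_mod_cast betti_le R (N i) n ℚ
      rw [div_le_iff₀ hk'] at h1
      exact_mod_cast h1
    have hw : Tendsto (fun i => (Fintype.card (R.ι n) : ℝ) - (NBT.betti ℚ R (N i) n : ℝ) / ((N i).index : ℝ)) atTop
        (nhds ((((Fintype.card (R.ι n) * H.index : ℕ) - r 0 : ℤ) : ℝ) / (H.index : ℝ))) := by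
      have h1 := (tendsto_const_nhds (x := (Fintype.card (R.ι n) : ℝ))).sub h0
      have e : (Fintype.card (R.ι n) : ℝ) - (r 0 : ℝ) / (H.index : ℝ) =
          (((Fintype.card (R.ι n) * H.index : ℕ) - r 0 : ℤ) : ℝ) / (H.index : ℝ) := by
        push_cast
        field_simp
      rwa [e] at h1
    have key : ∀ S : Finset ℕ, (∀ p ∈ S, p.Prime) → (∀ p ∈ S, r 0 ≤ r p) ∧
        ∏ p ∈ S, p ^ (r p - r 0).toNat ≤ K ^ ((Fintype.card (R.ι n) * H.index : ℕ) - r 0).toNat := by
      intro S hS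
      have hfact : ∀ j : S, Fact (j : ℕ).Prime := fun j => ⟨hS j j.2⟩
      have h1 := int_lim (ι := S) (u := fun j i => (NBT.betti (ZMod (j : ℕ)) R (N i) n : ℝ) / ((N i).index : ℝ))
        (v := fun _ i => (NBT.betti ℚ R (N i) n : ℝ) / ((N i).index : ℝ))
        (w := fun i => (Fintype.card (R.ι n) : ℝ) - (NBT.betti ℚ R (N i) n : ℝ) / ((N i).index : ℝ))
        (r := fun j => r (j : ℕ)) (s := fun _ => r 0) (t := (Fintype.card (R.ι n) * H.index : ℕ) - r 0) hk hK
        (p := fun j => (j : ℕ)) (fun j => (hS j j.2).two_le)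
        (fun j => hr' (j : ℕ) (ZMod (j : ℕ)) N hN) (fun _ => h0) hw
        (fun j i => by
          have h := rat_le_betti R (N i) n (ZMod (j : ℕ))
          gcongr)
        (fun i => by
          have h6 := log_form (ι := S) (p := fun j => (j : ℕ)) (x := fun _ => NBT.betti ℚ R (N i) n)
            (y := fun j => NBT.betti (ZMod (j : ℕ)) R (N i) n) (fun j => (hS j j.2).two_le) hK (hIpos i)
            (fun j => rat_le_betti R (N i) n (ZMod (j : ℕ)))
            (betti_prod R (N i) n K hR (fun j : S => ZMod (j : ℕ)) (fun j => (j : ℕ)) (fun j => hS j j.2)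
              Subtype.val_injective)
          have hI' : ((N i).index : ℝ) ≠ 0 := by exact_mod_cast (hIpos i).ne'
          rwa [Nat.cast_sub (betti_le R (N i) n ℚ), Nat.cast_mul, sub_div, mul_div_cancel_right₀ _ hI'] at h6)
      refine ⟨fun p hp => h1.1 ⟨p, hp⟩, ?_⟩
      have h2 := h1.2 (by omega)
      rw [← Finset.prod_coe_sort]
      exact h2
    have hp0 : ∀ p, p.Prime → r 0 ≤ r p := fun p hp => (key {p} (by simpa using hp)).1 p (by simp)
    have hex' : ∀ p, ∀ (F : Type w) [Field F] [CharP F p], 0 ≤ r p := by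
      intro p F _ _
      rcases CharP.char_is_prime_or_zero F p with h | h
      · exact hr0.trans (hp0 p h)
      · rw [h]
        exact hr0
    refine ⟨fun p => (r p).toNat, fun F _ p _ N _ _ hN => ?_, fun p hp => Int.toNat_le_toNat (hp0 p hp), ?_, fun S hS => ?_⟩
    · have h1 := hr p F N hN
      have h2 : (((r p).toNat : ℤ)) = r p := Int.toNat_of_nonneg (hex' p F)
      have h3 : (((r p).toNat : ℕ) : ℝ) = (r p : ℝ) := by
        have h4 : (((r p).toNat : ℕ) : ℝ) = (((r p).toNat : ℤ) : ℝ) := by push_cast; rfl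
        rw [h4, h2]
      rw [h3]
      exact h1
    · have h2 : (((r 0).toNat : ℤ)) = r 0 := Int.toNat_of_nonneg hr0
      change (r 0).toNat ≤ _
      omega
    · have h1 := (key S hS).2
      have e : ((Fintype.card (R.ι n) * H.index : ℕ) - r 0).toNat = Fintype.card (R.ι n) * H.index - (r 0).toNat := by
        omega
      rw [e] at h1
      refine le_trans (le_of_eq (Finset.prod_congr rfl fun p hp => ?_)) h1
      have h2 := hp0 p (hS p hp)
      change p ^ ((r p).toNat - (r 0).toNat) = _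
      congr 1
      omega
  · refine ⟨fun _ => 0, fun F _ p _ N _ _ hN => absurd ⟨N, inferInstance, inferInstance, hN⟩ hex, fun p _ => le_rfl,
      Nat.zero_le _, fun S _ => ?_⟩
    simp only [Nat.sub_self, pow_zero, Finset.prod_const_one]
    exact Nat.one_le_pow _ _ hK

end

end APR
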