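import Mathlib

/-!
# MP_83fbc5_gt, AP, module Spec: the kernel of an integral positive semidefinite matrix and traces of powers
-/

set_option autoImplicit false

namespace APR

open Matrix Module Polynomial

section

variable {a : Type} [Fintype a] [DecidableEq a]

/-- the trace of `(c - D)^n` in terms of the eigenvalues -/
theorem trace_pow_eq {D : Matrix a a ℝ} (hD : D.IsHermitian) (c : ℝ) (n : ℕ) :
    trace ((c • (1 : Matrix a a ℝ) - D) ^ n) = ∑ i, (c - hD.eigenvalues i) ^ n := by
  have h1 : (c • (1 : Matrix a a ℝ) - D) ^ n = Unitary.conjStarAlgAut ℝ _ hD.eigenvectorUnitary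
      (diagonal fun i => (c - hD.eigenvalues i) ^ n) := by
    have h2 : (diagonal fun i => (c - hD.eigenvalues i) ^ n : Matrix a a ℝ) =
        (c • (1 : Matrix a a ℝ) - diagonal (RCLike.ofReal ∘ hD.eigenvalues)) ^ n := by
      rw [← diagonal_one, ← diagonal_smul, diagonal_sub, diagonal_pow]
      congr 1
      funext i
      simp
    rw [h2, map_pow, map_sub, map_smul, map_one, ← hD.spectral_theorem]
  rw [h1, Unitary.conjStarAlgAut_apply, trace_mul_cycle]
  simp [trace_diagonal]

/-- the eigenvalues are bounded by the row norms -/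
theorem eig_le {D : Matrix a a ℝ} (hD : D.IsHermitian) {κ : ℝ} (h : ∀ i, ∑ j, |D i j| ≤ κ) (i : a) :
    |hD.eigenvalues i| ≤ κ := by
  have hev : Module.End.HasEigenvalue (Matrix.toLin' D) (hD.eigenvalues i) := by
    refine Module.End.hasEigenvalue_of_hasEigenvector (x := ⇑(hD.eigenvectorBasis i)) ⟨?_, ?_⟩
    · rw [Module.End.mem_eigenspace_iff, toLin'_apply]
      exact hD.mulVec_eigenvectorBasis i
    · intro h0
      exact hD.eigenvectorBasis.orthonormal.ne_zero i (by ext j; exact congrFun h0 j)
  obtain ⟨k, hk⟩ := eigenvalue_mem_ball hev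
  rw [Metric.mem_closedBall, Real.dist_eq] at hk
  have h1 := h k
  rw [← Finset.add_sum_erase _ _ (Finset.mem_univ k)] at h1
  simp only [Real.norm_eq_abs] at hk
  have h2 : |hD.eigenvalues i| ≤ |D k k| + |hD.eigenvalues i - D k k| := by
    have := abs_add_le (D k k) (hD.eigenvalues i - D k k)
    rwa [add_sub_cancel] at this
  linarith

/-- the product of the nonzero eigenvalues of an integral matrix is at least one in absolute value -/
theorem one_le_prod {B : Matrix a a ℤ} (hD : (B.map (Int.cast : ℤ → ℝ)).IsHermitian) :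
    1 ≤ ∏ i ∈ Finset.univ.filter (fun i => hD.eigenvalues i ≠ 0), |hD.eigenvalues i| := by
  classical
  set s := Finset.univ.filter (fun i => hD.eigenvalues i ≠ 0) with hs
  have h1 : (B.map (Int.cast : ℤ → ℝ)).charpoly = X ^ (sᶜ).card * ∏ i ∈ s, (X - C (hD.eigenvalues i)) := by
    rw [hD.charpoly_eq, ← Finset.prod_compl_mul_prod s]
    congr 1
    rw [Finset.prod_congr rfl (g := fun _ => (X : ℝ[X]))]
    · rw [Finset.prod_const]
    · intro i hi
      have h0 : hD.eigenvalues i = 0 := by
        by_contra hne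
        exact (Finset.mem_compl.1 hi) (Finset.mem_filter.2 ⟨Finset.mem_univ _, hne⟩)
      simp [h0]
  have h2 : (B.map (Int.cast : ℤ → ℝ)).charpoly.coeff (sᶜ).card = ∏ i ∈ s, (-hD.eigenvalues i) := by
    rw [h1, coeff_X_pow_mul', if_pos le_rfl, Nat.sub_self, coeff_zero_prod]
    simp
  have h3 : (B.map (Int.cast : ℤ → ℝ)).charpoly.coeff (sᶜ).card = ((B.charpoly.coeff (sᶜ).card : ℤ) : ℝ) := by
    rw [show B.map (Int.cast : ℤ → ℝ) = (Int.castRingHom ℝ).mapMatrix B from rfl]
    rw [show ((Int.castRingHom ℝ).mapMatrix B) = B.map (Int.castRingHom ℝ) from rfl, charpoly_map, coeff_map]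
    rfl
  have h4 : ∏ i ∈ s, |hD.eigenvalues i| = |((B.charpoly.coeff (sᶜ).card : ℤ) : ℝ)| := by
    rw [← h3, h2, Finset.abs_prod]
    simp
  have h5 : B.charpoly.coeff (sᶜ).card ≠ 0 := by
    intro h0
    rw [h0, Int.cast_zero, abs_zero, Finset.prod_eq_zero_iff] at h4
    obtain ⟨i, hi, h6⟩ := h4
    exact (Finset.mem_filter.1 hi).2 (abs_eq_zero.1 h6)
  rw [h4]
  have h6 : 1 ≤ |B.charpoly.coeff (sᶜ).card| := Int.one_le_abs h5
  exact_mod_cast h6

/-- the nullity of `B` and the trace of `(1 - B/κ)^n` -/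
theorem ker_trace {B : Matrix a a ℤ} (hB : (B.map (Int.cast : ℤ → ℝ)).PosSemidef) {κ : ℝ} (hκ : 1 ≤ κ)
    (h : ∀ i, ∑ j, |((B i j : ℤ) : ℝ)| ≤ κ) (n : ℕ) {ε : ℝ} (hε : 0 < ε) (hε' : ε < 1) :
    ((Fintype.card a - (B.map (Int.cast : ℤ → ℝ)).rank : ℕ) : ℝ) ≤
        trace ((κ • (1 : Matrix a a ℝ) - B.map (Int.cast : ℤ → ℝ)) ^ n) / κ ^ n ∧
      trace ((κ • (1 : Matrix a a ℝ) - B.map (Int.cast : ℤ → ℝ)) ^ n) / κ ^ n ≤
        ((Fintype.card a - (B.map (Int.cast : ℤ → ℝ)).rank : ℕ) : ℝ) +
          Fintype.card a * (Real.log κ / Real.log (1 / ε)) + Fintype.card a * (1 - ε / κ) ^ n := by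
  classical
  have hD := hB.isHermitian
  have hκ0 : 0 < κ := by linarith
  set e := hD.eigenvalues with he
  have he0 : ∀ i, 0 ≤ e i := fun i => hB.eigenvalues_nonneg i
  have he1 : ∀ i, e i ≤ κ := fun i => (le_abs_self _).trans (eig_le hD h i)
  have htr : trace ((κ • (1 : Matrix a a ℝ) - B.map (Int.cast : ℤ → ℝ)) ^ n) / κ ^ n = ∑ i, (1 - e i / κ) ^ n := by
    rw [trace_pow_eq hD, Finset.sum_div]
    refine Finset.sum_congr rfl fun i _ => ?_
    rw [← div_pow, sub_div, div_self hκ0.ne']
  have hz : Fintype.card a - (B.map (Int.cast : ℤ → ℝ)).rank = (Finset.univ.filter fun i => e i = 0).card := by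
    rw [hD.rank_eq_card_non_zero_eigs, Fintype.card_subtype]
    have h1 := Finset.card_filter_add_card_filter_not (s := (Finset.univ : Finset a)) (fun i => e i = 0)
    rw [Finset.card_univ] at h1
    have h2 : (Finset.univ.filter fun i => ¬ e i = 0) = Finset.univ.filter fun i => hD.eigenvalues i ≠ 0 := rfl
    rw [h2] at h1
    omega
  have hterm0 : ∀ i, 0 ≤ (1 - e i / κ) ^ n := fun i => pow_nonneg (by
    rw [sub_nonneg, div_le_one hκ0]
    exact he1 i) n
  have hterm1 : ∀ i, (1 - e i / κ) ^ n ≤ 1 := fun i => pow_le_one₀ (by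
    rw [sub_nonneg, div_le_one hκ0]
    exact he1 i) (by
    have := div_nonneg (he0 i) hκ0.le
    linarith)
  rw [htr, hz]
  constructor
  · calc (((Finset.univ.filter fun i => e i = 0).card : ℕ) : ℝ)
        = ∑ i ∈ Finset.univ.filter (fun i => e i = 0), (1 - e i / κ) ^ n := by
          rw [Finset.sum_congr rfl (g := fun _ => (1 : ℝ))]
          · simp
          · intro i hi
            rw [(Finset.mem_filter.1 hi).2]
            simp
      _ ≤ ∑ i, (1 - e i / κ) ^ n := Finset.sum_le_univ_sum_of_nonneg hterm0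
  · -- three kinds of eigenvalues
    set s := Finset.univ.filter (fun i => e i ≠ 0 ∧ e i < ε) with hs
    have hsplit : ∀ i, (1 - e i / κ) ^ n ≤ (if e i = 0 then 1 else 0) + (if e i ≠ 0 ∧ e i < ε then 1 else 0) +
        (1 - ε / κ) ^ n := by
      intro i
      have h0 : 0 ≤ (1 - ε / κ) ^ n := by
        refine pow_nonneg ?_ n
        rw [sub_nonneg, div_le_one hκ0]
        linarith
      by_cases h1 : e i = 0
      · rw [if_pos h1, if_neg (fun h => h.1 h1)]
        have := hterm1 i
        linarith
      by_cases h2 : e i < ε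
      · rw [if_neg h1, if_pos ⟨h1, h2⟩]
        have := hterm1 i
        linarith
      · rw [if_neg h1, if_neg (fun h => h2 h.2), zero_add, zero_add]
        push Not at h2
        have h3 := he1 i
        refine pow_le_pow_left₀ ?_ ?_ n
        · rw [sub_nonneg, div_le_one hκ0]
          exact h3
        · have : ε / κ ≤ e i / κ := by gcongr
          linarith
    have hsum : ∑ i, (1 - e i / κ) ^ n ≤ ((Finset.univ.filter fun i => e i = 0).card : ℝ) + (s.card : ℝ) +
        Fintype.card a * (1 - ε / κ) ^ n := by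
      refine (Finset.sum_le_sum fun i _ => hsplit i).trans (le_of_eq ?_)
      rw [Finset.sum_add_distrib, Finset.sum_add_distrib, Finset.sum_const, Finset.card_univ, nsmul_eq_mul,
        ← Finset.sum_filter, ← Finset.sum_filter]
      simp [s]
    -- the number of small eigenvalues
    have hlog : 0 < Real.log (1 / ε) := Real.log_pos (by rw [lt_div_iff₀ hε]; linarith)
    have hsmall : (s.card : ℝ) ≤ Fintype.card a * (Real.log κ / Real.log (1 / ε)) := by
      have h1 := one_le_prod (B := B) hD
      have h2 : ∏ i ∈ Finset.univ.filter (fun i => hD.eigenvalues i ≠ 0), |hD.eigenvalues i| ≤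
          ∏ i : a, (if i ∈ s then ε else κ) := by
        rw [Finset.prod_filter]
        refine Finset.prod_le_prod (fun i _ => ?_) fun i _ => ?_
        · split_ifs
          · exact abs_nonneg _
          · exact zero_le_one
        · by_cases h3 : hD.eigenvalues i ≠ 0
          · rw [if_pos h3, abs_of_nonneg (he0 i)]
            by_cases h4 : i ∈ s
            · rw [if_pos h4]
              exact (Finset.mem_filter.1 h4).2.2.le
            · rw [if_neg h4]
              exact he1 i
          · rw [if_neg h3]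
            have h4 : i ∉ s := fun h4 => h3 (Finset.mem_filter.1 h4).2.1
            rw [if_neg h4]
            exact hκ
      have h3 : ∏ i : a, (if i ∈ s then ε else κ) ≤ ε ^ s.card * κ ^ Fintype.card a := by
        rw [← Finset.prod_mul_prod_compl s]
        have e1 : ∏ i ∈ s, (if i ∈ s then ε else κ) = ε ^ s.card := by
          rw [Finset.prod_congr rfl (g := fun _ => ε) (fun i hi => if_pos hi), Finset.prod_const]
        have e2 : ∏ i ∈ sᶜ, (if i ∈ s then ε else κ) = κ ^ (sᶜ).card := by
          rw [Finset.prod_congr rfl (g := fun _ => κ) (fun i hi => if_neg (Finset.mem_compl.1 hi)), Finset.prod_const]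
        rw [e1, e2]
        refine mul_le_mul_of_nonneg_left (pow_le_pow_right₀ hκ ?_) (by positivity)
        exact Finset.card_le_univ _
      have h4 := h1.trans (h2.trans h3)
      have h5 := Real.log_le_log one_pos h4
      rw [Real.log_one, Real.log_mul (by positivity) (by positivity), Real.log_pow, Real.log_pow] at h5
      rw [← mul_div_assoc, le_div_iff₀ hlog, one_div, Real.log_inv]
      linarith
    linarith

end

end APR
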