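import Pool.Agent.Lib.MP_83fbc5_gt.AP.Grp
import Pool.Agent.Lib.MP_83fbc5_gt.AP.Spec

/-!
# MP_83fbc5_gt, AP, module Star: the matrix `A A*` over the group ring and its traces at finite quotients
-/

set_option autoImplicit false

namespace APR

open Matrix Module RFC

/-- the anti-involution `g ↦ g⁻¹` of `ℤ[G]` -/
noncomputable def st {G : Type} [Group G] (a : MonoidAlgebra ℤ G) : MonoidAlgebra ℤ G :=
  MonoidAlgebra.mapDomain (fun g => g⁻¹) a

section

variable {G X : Type} [Group G] [Fintype X] [DecidableEq X] (σ : G →* Equiv.Perm X)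

theorem pz_inv (g : G) : pz σ g⁻¹ = (pz σ g)ᵀ := by
  ext x y
  change (if x = σ g⁻¹ y then (1 : ℤ) else 0) = if y = σ g x then 1 else 0
  have h : x = σ g⁻¹ y ↔ y = σ g x := by
    rw [map_inv]
    constructor
    · intro h
      rw [h]
      simp
    · intro h
      rw [h]
      simp
  simp only [h]

theorem rz_st (a : MonoidAlgebra ℤ G) : rz σ (st a) = (rz σ a)ᵀ := by
  induction a using MonoidAlgebra.induction_linear with
  | zero => simp [st]
  | add x y hx hy =>
    have e : st (x + y) = st x + st y := MonoidAlgebra.mapDomain_add _ _ _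
    rw [e, map_add, map_add, hx, hy, transpose_add]
  | single g r =>
    have e : st (MonoidAlgebra.single g r) = MonoidAlgebra.single g⁻¹ r := MonoidAlgebra.mapDomain_single
    rw [e, rz, MonoidAlgebra.lift_single, MonoidAlgebra.lift_single, pz_inv, transpose_smul]

end

section

variable {G : Type} [Group G] (N : Subgroup G) [N.Normal] [Fintype (G ⧸ N)] [DecidableEq (G ⧸ N)]

/-- the integral matrices at the quotient `G/N` as a ring homomorphism -/
noncomputable def MzH (m : Type) [Fintype m] [DecidableEq m] :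
    Matrix m m (MonoidAlgebra ℤ G) →+* Matrix (m × (G ⧸ N)) (m × (G ⧸ N)) ℤ :=
  (Matrix.compRingEquiv m (G ⧸ N) ℤ).toRingHom.comp (rz (qs N)).toRingHom.mapMatrix

theorem MzH_apply {m : Type} [Fintype m] [DecidableEq m] (B : Matrix m m (MonoidAlgebra ℤ G)) :
    MzH N m B = Mz N B := rfl

theorem Mz_mul {m n l : Type} [Fintype n] (A : Matrix m n (MonoidAlgebra ℤ G)) (A' : Matrix n l (MonoidAlgebra ℤ G)) :
    Mz N (A * A') = Mz N A * Mz N A' := by
  ext x y
  rw [Matrix.mul_apply, Fintype.sum_prod_type]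
  have h : rz (qs N) ((A * A') x.1 y.1) = ∑ j, rz (qs N) (A x.1 j) * rz (qs N) (A' j y.1) := by
    rw [Matrix.mul_apply, map_sum]
    exact Finset.sum_congr rfl fun j _ => map_mul _ _ _
  change (rz (qs N) ((A * A') x.1 y.1)) x.2 y.2 = _
  rw [h, Matrix.sum_apply]
  exact Finset.sum_congr rfl fun j _ => Matrix.mul_apply

theorem Mz_st {m n : Type} (A : Matrix m n (MonoidAlgebra ℤ G)) : Mz N ((A.map st)ᵀ) = (Mz N A)ᵀ := by
  ext x y
  exact congrFun (congrFun (rz_st (qs N) (A y.1 x.1)) x.2) y.2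

/-- the sum of the coefficients at the elements of `N` -/
noncomputable def cN (c : MonoidAlgebra ℤ G) : ℤ :=
  open Classical in ∑ g ∈ c.coeff.support, if g ∈ N then c.coeff g else 0

theorem rz_diag (c : MonoidAlgebra ℤ G) (x : G ⧸ N) : rz (qs N) c x x = cN N c := by
  classical
  rw [rz, MonoidAlgebra.lift_apply, Finsupp.sum, Matrix.sum_apply, cN]
  refine Finset.sum_congr rfl fun g _ => ?_
  change c.coeff g * (if x = qs N g x then 1 else 0) = _
  have h : x = qs N g x ↔ g ∈ N := by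
    rw [qs_apply]
    constructor
    · intro h
      have h1 : (QuotientGroup.mk' N g)⁻¹ = 1 := by
        have h2 : x * 1 = x * (QuotientGroup.mk' N g)⁻¹ := by rw [mul_one]; exact h
        exact (mul_left_cancel h2).symm
      rw [inv_eq_one] at h1
      exact (QuotientGroup.eq_one_iff g).1 h1
    · intro h
      have h1 : QuotientGroup.mk' N g = 1 := (QuotientGroup.eq_one_iff g).2 h
      rw [h1, inv_one, mul_one]
  simp only [h]
  split_ifs <;> simp

theorem trace_Mz {m : Type} [Fintype m] (C : Matrix m m (MonoidAlgebra ℤ G)) :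
    trace (Mz N C) = Fintype.card (G ⧸ N) * ∑ i, cN N (C i i) := by
  rw [trace, Fintype.sum_prod_type, Finset.mul_sum]
  refine Finset.sum_congr rfl fun i _ => ?_
  have h : ∀ y, (Mz N C).diag (i, y) = cN N (C i i) := fun y => rz_diag N (C i i) y
  rw [Finset.sum_congr rfl fun y _ => h y, Finset.sum_const, Finset.card_univ, nsmul_eq_mul]

end

/-- the matrix `A A*` -/
noncomputable def gram {G : Type} [Group G] {m n : Type} [Fintype n] (A : Matrix m n (MonoidAlgebra ℤ G)) :
    Matrix m m (MonoidAlgebra ℤ G) := A * (A.map st)ᵀ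

/-- a bound for the row norms of `A A*` -/
noncomputable def kap {G : Type} [Group G] {m n : Type} [Fintype m] [Fintype n] (A : Matrix m n (MonoidAlgebra ℤ G)) : ℕ :=
  1 + ∑ i, ∑ j, nm (gram A i j)

/-- the coefficient at `1` of the trace of `(κ - A A*)^k` -/
noncomputable def tau {G : Type} [Group G] {m n : Type} [Fintype m] [DecidableEq m] [Fintype n]
    (A : Matrix m n (MonoidAlgebra ℤ G)) (k : ℕ) : ℤ :=
  ∑ i, ((((kap A : ℤ) • (1 : Matrix m m (MonoidAlgebra ℤ G)) - gram A) ^ k) i i).coeff 1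

theorem cN_eq {G : Type} [Group G] (N : Subgroup G) (c : MonoidAlgebra ℤ G)
    (h : ∀ g ∈ c.coeff.support, g ∈ N → g = 1) : cN N c = c.coeff 1 := by
  classical
  rw [cN]
  by_cases h1 : (1 : G) ∈ c.coeff.support
  · rw [Finset.sum_eq_single 1]
    · rw [if_pos N.one_mem]
    · intro g hg hg1
      rw [if_neg fun hN => hg1 (h g hg hN)]
    · intro h2
      exact absurd h1 h2
  · rw [Finsupp.notMem_support_iff.1 h1]
    refine Finset.sum_eq_zero fun g hg => ?_
    rw [if_neg fun hN => h1 (by rw [← h g hg hN]; exact hg)]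

/-- the traces at the quotient `G/N` -/
theorem trace_gram {G : Type} [Group G] (N : Subgroup G) [N.Normal] [Fintype (G ⧸ N)] [DecidableEq (G ⧸ N)]
    {m n : Type} [Fintype m] [DecidableEq m] [Fintype n] (A : Matrix m n (MonoidAlgebra ℤ G)) (k : ℕ)
    (h : ∀ i, ∀ g ∈ ((((kap A : ℤ) • (1 : Matrix m m (MonoidAlgebra ℤ G)) - gram A) ^ k) i i).coeff.support, g ∈ N → g = 1) :
    trace (((kap A : ℝ) • (1 : Matrix (m × (G ⧸ N)) (m × (G ⧸ N)) ℝ) -
      (Mz N (gram A)).map (Int.cast : ℤ → ℝ)) ^ k) = Fintype.card (G ⧸ N) * (tau A k : ℝ) := by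
  have h1 : Mz N (((kap A : ℤ) • (1 : Matrix m m (MonoidAlgebra ℤ G)) - gram A) ^ k) =
      ((kap A : ℤ) • (1 : Matrix (m × (G ⧸ N)) (m × (G ⧸ N)) ℤ) - Mz N (gram A)) ^ k := by
    rw [← MzH_apply, map_pow, map_sub, map_zsmul, map_one, MzH_apply]
  have h2 : (((kap A : ℤ) • (1 : Matrix (m × (G ⧸ N)) (m × (G ⧸ N)) ℤ) - Mz N (gram A)) ^ k).map (Int.cast : ℤ → ℝ) =
      ((kap A : ℝ) • (1 : Matrix (m × (G ⧸ N)) (m × (G ⧸ N)) ℝ) - (Mz N (gram A)).map (Int.cast : ℤ → ℝ)) ^ k := by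
    change (Int.castRingHom ℝ).mapMatrix _ = _
    rw [map_pow, map_sub, map_zsmul, map_one]
    congr 2
    ext i j
    simp
  rw [← h2, ← h1]
  have h3 : trace ((Mz N (((kap A : ℤ) • (1 : Matrix m m (MonoidAlgebra ℤ G)) - gram A) ^ k)).map (Int.cast : ℤ → ℝ)) =
      ((trace (Mz N (((kap A : ℤ) • (1 : Matrix m m (MonoidAlgebra ℤ G)) - gram A) ^ k)) : ℤ) : ℝ) := by
    rw [trace, trace, Int.cast_sum]
    rfl
  rw [h3, trace_Mz, tau, Finset.sum_congr rfl fun i _ => cN_eq N _ (h i)]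
  push_cast
  rfl

theorem gram_psd {G : Type} [Group G] (N : Subgroup G) [N.Normal] [Fintype (G ⧸ N)] [DecidableEq (G ⧸ N)]
    {m n : Type} [Fintype m] [Fintype n] (A : Matrix m n (MonoidAlgebra ℤ G)) :
    ((Mz N (gram A)).map (Int.cast : ℤ → ℝ)).PosSemidef ∧
      ((Mz N (gram A)).map (Int.cast : ℤ → ℝ)).rank = NBT.rk ℚ N A ∧
      ∀ x, ∑ y, |((Mz N (gram A) x y : ℤ) : ℝ)| ≤ (kap A : ℝ) := by
  have h1 : (Mz N (gram A)).map (Int.cast : ℤ → ℝ) =
      ((Mz N A).map (Int.cast : ℤ → ℝ)) * ((Mz N A).map (Int.cast : ℤ → ℝ))ᵀ := by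
    rw [gram, Mz_mul, Mz_st]
    ext x y
    simp [Matrix.mul_apply]
  refine ⟨?_, ?_, fun x => ?_⟩
  · rw [h1, ← conjTranspose_eq_transpose_of_trivial]
    exact posSemidef_self_mul_conjTranspose _
  · rw [h1, rank_self_mul_transpose, rk_eq_Mz N A ℚ, rank_eq_rat ℝ]
  · have h2 : ∑ y, (Mz N (gram A) x y).natAbs ≤ kap A := by
      refine (Mz_sum N (gram A) x).trans ?_
      unfold kap
      have h3 : ∑ j, nm (gram A x.1 j) ≤ ∑ i, ∑ j, nm (gram A i j) :=
        Finset.single_le_sum (f := fun i => ∑ j, nm (gram A i j)) (fun _ _ => Nat.zero_le _) (Finset.mem_univ x.1)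
      omega
    have h3 : ((∑ y, (Mz N (gram A) x y).natAbs : ℕ) : ℝ) ≤ (kap A : ℝ) := by exact_mod_cast h2
    rw [Nat.cast_sum] at h3
    refine le_trans (le_of_eq (Finset.sum_congr rfl fun y _ => ?_)) h3
    rw [Nat.cast_natAbs, Int.cast_abs]

end APR
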